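import Pool.Agent.U120.DL.Her

/-!
# The joint law of all the partial products
-/

set_option autoImplicit false

open scoped Classical

namespace Pool.Agent.U120.DL

open Finset
open Pool.Agent.Y759.CX (fr)
open Pool.Agent.Y703.CQ (nr prs)
open Pool.Agent.Y219.CQ (F mem_prs ext_symm ext_pos ext_neg ext_self)
open Pool.Agent.R413.SQ (Gd Sol cu)
open Pool.Agent.Y698.SG (n4)

section joint
variable {ι : Type} [Fintype ι] [LinearOrder ι]

/-- the matrix of the subset `V` is nonsingular -/
def NS (t : ι → Fin 3) (a : ι → ι → F) (V : Finset ι) : Prop :=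
  ∀ y : ι → F, (∀ i, i ∉ V ∨ t i = 0 → y i = 0) →
    (∀ j ∈ V, t j ≠ 0 → ∑ l ∈ V, a j l * (y l + y j) + (if t j = 2 then 1 else 0) * y j = 0) →
      ∀ i, y i = 0

lemma n4_lab {p : ℕ} (h : lab p ≠ 0) : n4 p = if lab p = 2 then 1 else 0 := by
  have h4 := lab_mk.1 h
  show n4 p = if (if Pool.Agent.R413.SQ.mk p = 1 then
    (if n4 p = 1 then (2 : Fin 3) else 1) else 0) = 2 then 1 else 0
  rw [if_pos h4]
  rcases f2 (n4 p) with h5 | h5
  · rw [h5, if_neg (by decide)]
  · rw [h5, if_pos rfl, if_pos rfl]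

omit [Fintype ι] in
/-- the good partial products, in terms of the symbols -/
lemma gd_ns {p : ι → ℕ} (hp : Function.Injective p) (V : Finset ι) :
    Gd n4 (V.image p) ↔ NS (fun i => lab (p i)) (fun k l => nr (p k) (p l)) V := by
  have hsum : ∀ h : ℕ → ZMod 2, ∑ q ∈ V.image p, h q = ∑ l ∈ V, h (p l) := fun h =>
    Finset.sum_image fun a _ b _ hab => hp hab
  constructor
  · intro h y hy h1 i
    set x : ℕ → ZMod 2 := fun n => if h : ∃ l, p l = n then y h.choose else 0 with hx
    have e2 : ∀ l, x (p l) = y l := by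
      intro l
      have hex : ∃ l', p l' = p l := ⟨l, rfl⟩
      simp only [hx]
      rw [dif_pos hex]
      exact congrArg y (hp hex.choose_spec)
    have e4 : ∀ l, cu x (p l) = y l := by
      intro l
      unfold Pool.Agent.R413.SQ.cu
      split_ifs with h8
      · exact e2 l
      · refine (hy l (Or.inr ?_)).symm
        by_contra h9
        exact h8 (lab_mk.1 h9)
    have hs : Sol n4 (V.image p) x := by
      intro q hq hm
      obtain ⟨k, hk, rfl⟩ := Finset.mem_image.1 hq
      rw [hsum]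
      simp only [e2, e4]
      have h3 := h1 k hk (lab_mk.2 hm)
      rw [n4_lab (lab_mk.2 hm)]
      exact h3
    by_cases hi : i ∈ V
    · by_cases hm : Pool.Agent.R413.SQ.mk (p i) = 1
      · rw [← e2]
        exact h x hs _ (Finset.mem_image_of_mem _ hi) hm
      · refine hy i (Or.inr ?_)
        by_contra h9
        exact hm (lab_mk.1 h9)
    · exact hy i (Or.inl hi)
  · intro h x hx q hq hm
    obtain ⟨k, hk, rfl⟩ := Finset.mem_image.1 hq
    have hcu : ∀ q : ℕ, Pool.Agent.R413.SQ.mk q = 1 → cu x q = x q := by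
      intro q hq
      unfold Pool.Agent.R413.SQ.cu
      rw [if_pos hq]
    have h1 := h (fun l => if l ∈ V then cu x (p l) else 0) (fun l hl => by
        rcases hl with hl | hl
        · rw [if_neg hl]
        · have h8 : ¬ Pool.Agent.R413.SQ.mk (p l) = 1 := fun h8 => (lab_mk.2 h8) hl
          by_cases hv : l ∈ V
          · rw [if_pos hv]
            unfold Pool.Agent.R413.SQ.cu
            rw [if_neg h8]
          · rw [if_neg hv]) (fun j hj hl => by
        have h8 := lab_mk.1 hl
        have := hx (p j) (Finset.mem_image_of_mem _ hj) h8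
        rw [hsum, n4_lab hl] at this
        rw [← hcu (p j) h8] at this
        refine (congrArg₂ (· + ·) (Finset.sum_congr rfl fun l hl' => ?_) ?_).trans this
        · rw [if_pos hl', if_pos hj]
        · rw [if_pos hj]) k
    rw [if_pos hk] at h1
    rw [← hcu _ hm]
    exact h1

/-- the probability of a property of the symbols -/
noncomputable def PF (Φ : (ι → Fin 3) → (ι → ι → F) → Prop) (t : ι → Fin 3) : ℝ :=
  fr (fun α : prs (univ : Finset ι) → F => Φ t (Pool.Agent.Y703.CQ.ext α))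

lemma PF_bd (Φ : (ι → Fin 3) → (ι → ι → F) → Prop) (t : ι → Fin 3) : 0 ≤ PF Φ t ∧ PF Φ t ≤ 1 :=
  ⟨Pool.Agent.Y759.CX.fr_nonneg _, Pool.Agent.Y759.CX.fr_le_one _⟩

/-- the deviation of a tuple -/
noncomputable def dvG (Φ : (ι → Fin 3) → (ι → ι → F) → Prop) (p : ι → ℕ) : ℝ :=
  (if Φ (fun i => lab (p i)) (fun k l => nr (p k) (p l)) then 1 else 0) - PF Φ fun i => lab (p i)

lemma dvG_bd (Φ : (ι → Fin 3) → (ι → ι → F) → Prop) (p : ι → ℕ) : |dvG Φ p| ≤ 1 := by
  unfold dvG
  obtain ⟨h1, h2⟩ := PF_bd Φ fun i => lab (p i)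
  rw [abs_le]
  split_ifs
  · exact ⟨by linarith, by linarith⟩
  · exact ⟨by linarith, by linarith⟩

/-- **all the tuples, any property of the symbols** -/
theorem dvG_sum {X s : ℕ} (hX : 1 ≤ X) (hs : 1 ≤ s) (C : ι → Finset ℕ)
    (hS : ∀ i, ∀ p ∈ C i, P4 p ∧ p ≤ X) (hCs : ∀ i, (C i).card ≤ s)
    (Φ : (ι → Fin 3) → (ι → ι → F) → Prop) :
    |∑ p ∈ Fintype.piFinset C, dvG Φ p| ≤
      3 ^ Fintype.card ι * (2 ^ (Fintype.card ι ^ 2) * (kap X s * (s : ℝ) ^ Fintype.card ι)) := by
  have h1 : ∑ p ∈ Fintype.piFinset C, dvG Φ p =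
      ∑ t : ι → Fin 3, ∑ p ∈ Fintype.piFinset fun i => (C i).filter fun q => lab q = t i,
        dvG Φ p := by
    rw [← Finset.sum_fiberwise_of_maps_to (g := fun (p : ι → ℕ) i => lab (p i))
      (t := (univ : Finset (ι → Fin 3))) (fun _ _ => Finset.mem_univ _)]
    refine Finset.sum_congr rfl fun t _ => Finset.sum_congr ?_ fun _ _ => rfl
    ext p
    simp only [Finset.mem_filter, Fintype.mem_piFinset]
    constructor
    · rintro ⟨h2, h3⟩ i
      exact ⟨h2 i, congrFun h3 i⟩
    · intro h2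
      exact ⟨fun i => (h2 i).1, funext fun i => (h2 i).2⟩
  rw [h1]
  refine (Finset.abs_sum_le_sum_abs _ _).trans ?_
  have h2 : ∀ t : ι → Fin 3,
      |∑ p ∈ Fintype.piFinset fun i => (C i).filter fun q => lab q = t i, dvG Φ p| ≤
        2 ^ (Fintype.card ι ^ 2) * (kap X s * (s : ℝ) ^ Fintype.card ι) := by
    intro t
    have h3 := equi hX hs (univ : Finset ι) (fun i => (C i).filter fun q => lab q = t i)
      (fun i p hp => hS i p (Finset.mem_filter.1 hp).1)
      (fun i => (Finset.card_filter_le _ _).trans (hCs i))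
      (fun α => Φ t (Pool.Agent.Y703.CQ.ext α))
    refine (le_of_eq ?_).trans h3
    congr 1
    have e1 : ∀ p ∈ Fintype.piFinset fun i => (C i).filter fun q => lab q = t i,
        dvG Φ p = (if Φ t (Pool.Agent.Y703.CQ.ext fun e : prs (univ : Finset ι) =>
          nr (p e.1.1) (p e.1.2)) then 1 else 0) - PF Φ t := by
      intro p hp
      rw [Fintype.mem_piFinset] at hp
      have e2 : (fun i => lab (p i)) = t := funext fun i => (Finset.mem_filter.1 (hp i)).2
      have e3 : (Pool.Agent.Y703.CQ.ext fun e : prs (univ : Finset ι) =>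
          nr (p e.1.1) (p e.1.2)) = fun k l => nr (p k) (p l) :=
        funext fun k => funext fun l => ext_nr (fun i => (hS i _ (Finset.mem_filter.1 (hp i)).1).1) l
          (Finset.mem_univ k)
      unfold dvG
      rw [e2, e3]
    rw [Finset.sum_congr rfl e1, Finset.sum_sub_distrib, Finset.sum_boole, Finset.sum_const,
      nsmul_eq_mul, Fintype.card_piFinset]
    unfold PF
    push_cast
    ring
  refine (Finset.sum_le_sum fun t _ => h2 t).trans ?_
  rw [Finset.sum_const, Finset.card_univ, nsmul_eq_mul, Fintype.card_fun, Fintype.card_fin]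
  push_cast
  exact le_rfl

/-- the symmetric matrices with zero diagonal and the symbols -/
theorem card_sym (Ψ : (ι → ι → F) → Prop) :
    Nat.card {a : Matrix ι ι F // a.IsSymm ∧ (∀ i, a i i = 0) ∧ Ψ a} =
      Nat.card {α : prs (univ : Finset ι) → F // Ψ (Pool.Agent.Y703.CQ.ext α)} := by
  have key : ∀ a : Matrix ι ι F, a.IsSymm → (∀ i, a i i = 0) →
      (Pool.Agent.Y703.CQ.ext fun e : prs (univ : Finset ι) => a e.1.1 e.1.2) = a := by
    intro a h1 h2
    funext k l
    by_cases h : (k, l) ∈ prs (univ : Finset ι)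
    · rw [ext_pos univ _ h]
    · by_cases hlk : l = k
      · rw [hlk, ext_self, h2]
      · have h3 : ¬ k < l := by
          intro hcon
          apply h
          rw [mem_prs]
          exact ⟨Finset.mem_univ _, hlk, fun _ => hcon⟩
        have h4 : (l, k) ∈ prs (univ : Finset ι) := (mem_prs univ l k).2
          ⟨Finset.mem_univ _, fun h => hlk h.symm, fun _ => lt_of_le_of_ne (not_lt.1 h3) hlk⟩
        rw [ext_neg univ _ h4 (Finset.mem_univ _)]
        exact h1.apply k l
  refine Nat.card_congr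
    { toFun := fun a => ⟨fun e => a.1 e.1.1 e.1.2, by rw [key a.1 a.2.1 a.2.2.1]; exact a.2.2.2⟩
      invFun := fun α => ⟨Pool.Agent.Y703.CQ.ext α.1, ?_, fun i => ext_self _ _ _, α.2⟩
      left_inv := ?_
      right_inv := ?_ }
  · refine Matrix.IsSymm.ext fun i j => ?_
    exact ext_symm univ α.1 (Finset.mem_univ _) (Finset.mem_univ _)
  · intro a
    exact Subtype.ext (key a.1 a.2.1 a.2.2.1)
  · intro α
    refine Subtype.ext (funext fun e => ?_)
    exact ext_pos univ α.1 e.2

theorem PF_eq (Φ : (ι → Fin 3) → (ι → ι → F) → Prop) (t : ι → Fin 3) :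
    PF Φ t = (Nat.card {a : Matrix ι ι F // a.IsSymm ∧ (∀ i, a i i = 0) ∧ Φ t a} : ℝ) /
      2 ^ (Fintype.card ι * (Fintype.card ι - 1) / 2) := by
  unfold PF Pool.Agent.Y759.CX.fr
  have h6 : Nat.card (prs (univ : Finset ι) → F) = 2 ^ (prs (univ : Finset ι)).card := by
    rw [Nat.card_fun, Nat.card_eq_fintype_card, Nat.card_eq_fintype_card, ZMod.card,
      Fintype.card_coe]
  rw [card_sym (Φ t), h6, prs_eq, Finset.card_univ, Nat.sub_self, mul_zero, zero_add]
  push_cast
  rfl

end joint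

/-- **the joint law of a property of the symbols, for boxes** -/
theorem boxG {k X s : ℕ} (hk : 1 ≤ k) (hX : 1 ≤ X) (hs : 1 ≤ s) (C : Fin k → Finset ℕ)
    (hC : ∀ i, ∀ p ∈ C i, P4 p ∧ p ≤ X) (hCs : ∀ i, (C i).card ≤ s)
    (Φ : (Fin k → Fin 3) → (Fin k → Fin k → F) → Prop) :
    |∑ p ∈ (Fintype.piFinset C).filter Function.Injective, dvG Φ p| ≤ er k X s := by
  have h4 := dvG_sum hX hs C hC hCs Φ
  rw [Fintype.card_fin] at h4
  exact to_inj hk hX hs C hCs (dvG Φ) (dvG_bd Φ) h4

end Pool.Agent.U120.DL
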