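import Pool.Agent.Y710.CQ.BIL

/-!
# Bilinear sums of quadratic symbols of arbitrary sets of primes

A bilinear estimate for arbitrary sets of more than `X ^ (2/3)` primes up to `X` (Fejer weights and the
operator norm of a Paley matrix in the place of the trivial bound for incomplete sums).
-/

set_option autoImplicit false

open scoped Classical ComplexConjugate

namespace Pool.Agent.U120.DL

open Finset
open Pool.Agent.Y710.CQ (xi xi_one xi_mul xi_norm leg)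

section corr

/-- the correlation of the symbols modulo one prime -/
theorem paley {p : ℕ} [Fact p.Prime] (hp2 : p ≠ 2) (b c : ZMod p) :
    ∑ x : ZMod p, (quadraticChar (ZMod p) (x - b) : ℤ) * quadraticChar (ZMod p) (x - c) =
      (if b = c then (p : ℤ) else 0) - 1 := by
  by_cases h : b = c
  · subst h
    rw [if_pos rfl]
    have e1 : ∀ x : ZMod p, (quadraticChar (ZMod p) (x - b) : ℤ) * quadraticChar (ZMod p) (x - b) =
        1 - if x = b then 1 else 0 := by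
      intro x
      by_cases hx : x = b
      · subst hx
        rw [if_pos rfl, sub_self, MulChar.map_zero]
        ring
      · rw [if_neg hx, ← sq, quadraticChar_sq_one (sub_ne_zero.2 hx), sub_zero]
    rw [Finset.sum_congr rfl fun x _ => e1 x, Finset.sum_sub_distrib, Finset.sum_ite_eq',
      if_pos (Finset.mem_univ _), Finset.sum_const, Finset.card_univ, ZMod.card, nsmul_eq_mul,
      mul_one]
  · rw [if_neg h]
    have hd : b - c ≠ 0 := sub_ne_zero.2 h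
    have hc : ringChar (ZMod p) ≠ 2 := by rwa [ZMod.ringChar_zmod_n]
    set χ := quadraticChar (ZMod p) with hχ
    have e1 : ∑ x : ZMod p, (χ (x - b) : ℤ) * χ (x - c) =
        ∑ t : ZMod p, (χ (-(b - c) * t) : ℤ) * χ (-(b - c) * t + (b - c)) := by
      refine Finset.sum_nbij' (fun x => -(b - c)⁻¹ * (x - b)) (fun t => -(b - c) * t + b)
        (fun _ _ => Finset.mem_univ _) (fun _ _ => Finset.mem_univ _) (fun x _ => ?_)
        (fun t _ => ?_) (fun x _ => ?_)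
      · field_simp
        ring
      · field_simp
        ring
      · have e2 : -(b - c) * (-(b - c)⁻¹ * (x - b)) = x - b := by
          field_simp
        rw [e2]
        congr 2
        ring
    have e2 : ∀ t : ZMod p, (χ (-(b - c) * t) : ℤ) * χ (-(b - c) * t + (b - c)) =
        χ (-1) * (χ t * χ (1 - t)) := by
      intro t
      have e3 : -(b - c) * t = (-1) * ((b - c) * t) := by ring
      have e4 : -(b - c) * t + (b - c) = (b - c) * (1 - t) := by ring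
      rw [e4, e3, map_mul, map_mul, map_mul]
      have e5 : (χ (b - c) : ℤ) ^ 2 = 1 := quadraticChar_sq_one hd
      calc χ (-1) * (χ (b - c) * χ t) * (χ (b - c) * χ (1 - t)) =
          χ (-1) * (χ t * χ (1 - t)) * (χ (b - c)) ^ 2 := by ring
        _ = _ := by rw [e5, mul_one]
    rw [e1, Finset.sum_congr rfl fun t _ => e2 t, ← Finset.mul_sum]
    have e3 : ∑ t : ZMod p, χ t * χ (1 - t) = - χ (-1) := by
      have h1 := jacobiSum_nontrivial_inv (R := ℤ) (χ := χ) (quadraticChar_ne_one hc)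
      rw [(quadraticChar_isQuadratic (ZMod p)).inv] at h1
      exact h1
    rw [e3]
    have e4 : (χ (-1) : ℤ) ^ 2 = 1 := quadraticChar_sq_one (neg_ne_zero.2 one_ne_zero)
    linarith [e4, sq (χ (-1) : ℤ)]

/-- sums over intervals of a function on `ZMod Q` -/
theorem per {Q : ℕ} [NeZero Q] (G : ZMod Q → ℝ) (h0 : ∑ x, G x = 0) (N : ℕ) :
    ∑ a ∈ range N, G (a : ZMod Q) = ∑ a ∈ range (N % Q), G (a : ZMod Q) := by
  have h1 : ∀ F : ZMod Q → ℝ, ∑ a ∈ range Q, F (a : ZMod Q) = ∑ x, F x := by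
    intro F
    refine Finset.sum_nbij' (fun n => (n : ZMod Q)) ZMod.val (fun _ _ => Finset.mem_univ _)
      (fun x _ => Finset.mem_range.2 (ZMod.val_lt x)) (fun n hn => ?_) (fun x _ => ?_) (fun n _ => rfl)
    · exact ZMod.val_cast_of_lt (Finset.mem_range.1 hn)
    · exact ZMod.natCast_zmod_val x
  have h2 : ∀ m : ℕ, ∑ a ∈ range (m * Q), G (a : ZMod Q) = 0 := by
    intro m
    induction m with
    | zero => simp
    | succ m ih =>
      rw [Nat.succ_mul, Finset.sum_range_add, ih, zero_add]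
      have e : ∀ x : ℕ, G ((m * Q + x : ℕ) : ZMod Q) = G (x : ZMod Q) := by
        intro x
        push_cast
        rw [ZMod.natCast_self, mul_zero, zero_add]
      rw [Finset.sum_congr rfl fun x _ => e x, h1, h0]
  have h3 : N = (N / Q) * Q + N % Q := by
    rw [mul_comm]
    exact (Nat.div_add_mod N Q).symm
  conv_lhs => rw [h3]
  rw [Finset.sum_range_add, h2, zero_add]
  refine Finset.sum_congr rfl fun x _ => ?_
  congr 1
  push_cast
  rw [ZMod.natCast_self, mul_zero, zero_add]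

/-- the double sums over an interval -/
theorem dbl {Q : ℕ} [NeZero Q] (G : ZMod Q → ℝ) (h0 : ∑ x, G x = 0)
    (hc : ∀ b c : ZMod Q, ∑ x, G (x - b) * G (x - c) ≤ (if b = c then (Q : ℝ) else 0) + 1)
    (N : ℕ) : |∑ a ∈ range N, ∑ b ∈ range N, G ((a : ZMod Q) - b)| ^ 2 ≤ 2 * (Q : ℝ) ^ 3 := by
  set R := N % Q with hR
  have hRQ : R ≤ Q := (Nat.mod_lt _ (NeZero.pos Q)).le
  have s0 : ∀ b : ZMod Q, ∑ x, G (x - b) = 0 := fun b => by
    rw [← h0]
    exact Equiv.sum_comp (Equiv.subRight b) G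
  have s1 : ∀ a : ZMod Q, ∑ x, G (a - x) = 0 := fun a => by
    rw [← h0]
    exact Equiv.sum_comp (Equiv.subLeft a) G
  have e1 : ∑ a ∈ range N, ∑ b ∈ range N, G ((a : ZMod Q) - b) =
      ∑ a ∈ range R, ∑ b ∈ range R, G ((a : ZMod Q) - b) := by
    rw [Finset.sum_comm]
    have h1 : ∀ b ∈ range N, ∑ a ∈ range N, G ((a : ZMod Q) - b) =
        ∑ a ∈ range R, G ((a : ZMod Q) - b) := fun b _ =>
      per (fun x : ZMod Q => G (x - (b : ZMod Q))) (s0 b) N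
    rw [Finset.sum_congr rfl h1, Finset.sum_comm]
    refine Finset.sum_congr rfl fun a _ => ?_
    exact per (fun x : ZMod Q => G ((a : ZMod Q) - x)) (s1 a) N
  rw [e1]
  have h2 : |∑ a ∈ range R, ∑ b ∈ range R, G ((a : ZMod Q) - b)| ^ 2 ≤
      R * ∑ a ∈ range R, (∑ b ∈ range R, G ((a : ZMod Q) - b)) ^ 2 := by
    rw [sq_abs]
    have h := sq_sum_le_card_mul_sum_sq (s := range R)
      (f := fun a => ∑ b ∈ range R, G ((a : ZMod Q) - b))
    rwa [Finset.card_range] at h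
  have h3 : ∑ a ∈ range R, (∑ b ∈ range R, G ((a : ZMod Q) - b)) ^ 2 ≤
      ∑ x : ZMod Q, (∑ b ∈ range R, G (x - b)) ^ 2 := by
    have h4 : ∑ a ∈ range R, (∑ b ∈ range R, G ((a : ZMod Q) - b)) ^ 2 ≤
        ∑ a ∈ range Q, (∑ b ∈ range R, G ((a : ZMod Q) - b)) ^ 2 :=
      Finset.sum_le_sum_of_subset_of_nonneg (Finset.range_mono hRQ) fun _ _ _ => sq_nonneg _
    refine h4.trans (le_of_eq ?_)
    refine Finset.sum_nbij' (fun n => (n : ZMod Q)) ZMod.val (fun _ _ => Finset.mem_univ _)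
      (fun x _ => Finset.mem_range.2 (ZMod.val_lt x)) (fun n hn => ?_) (fun x _ => ?_) (fun n _ => rfl)
    · exact ZMod.val_cast_of_lt (Finset.mem_range.1 hn)
    · exact ZMod.natCast_zmod_val x
  have h4 : ∑ x : ZMod Q, (∑ b ∈ range R, G (x - b)) ^ 2 ≤ 2 * (Q : ℝ) * R := by
    have e2 : ∀ x : ZMod Q, (∑ b ∈ range R, G (x - b)) ^ 2 =
        ∑ b ∈ range R, ∑ c ∈ range R, G (x - b) * G (x - c) := fun x => by
      rw [sq, Finset.sum_mul_sum]
    rw [Finset.sum_congr rfl fun x _ => e2 x, Finset.sum_comm]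
    have e3 : ∀ b ∈ range R, ∑ x : ZMod Q, ∑ c ∈ range R, G (x - (b : ZMod Q)) * G (x - c) ≤
        (Q : ℝ) + R := by
      intro b hb
      rw [Finset.sum_comm]
      refine (Finset.sum_le_sum (s := range R) fun (c : ℕ) _ =>
        hc (b : ZMod Q) (c : ZMod Q)).trans ?_
      rw [Finset.sum_add_distrib, Finset.sum_const, Finset.card_range, nsmul_eq_mul, mul_one]
      have e4 : ∀ c ∈ range R, (if (b : ZMod Q) = (c : ZMod Q) then (Q : ℝ) else 0) =
          if b = c then (Q : ℝ) else 0 := by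
        intro c hc'
        have h5 : (b : ZMod Q) = (c : ZMod Q) ↔ b = c := by
          constructor
          · intro h
            have h6 := congrArg ZMod.val h
            rwa [ZMod.val_cast_of_lt (lt_of_lt_of_le (Finset.mem_range.1 hb) hRQ),
              ZMod.val_cast_of_lt (lt_of_lt_of_le (Finset.mem_range.1 hc') hRQ)] at h6
          · rintro rfl
            rfl
        by_cases h6 : b = c
        · rw [if_pos h6, if_pos (h5.2 h6)]
        · rw [if_neg h6, if_neg fun h7 => h6 (h5.1 h7)]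
      rw [Finset.sum_congr rfl e4, Finset.sum_ite_eq, if_pos hb]
    refine (Finset.sum_le_sum e3).trans ?_
    rw [Finset.sum_const, Finset.card_range, nsmul_eq_mul]
    have hRr : (R : ℝ) ≤ Q := by exact_mod_cast hRQ
    nlinarith [Nat.cast_nonneg (α := ℝ) R]
  have hRr : (R : ℝ) ≤ Q := by exact_mod_cast hRQ
  have hR0 : (0 : ℝ) ≤ R := Nat.cast_nonneg R
  have hQ0 : (0 : ℝ) ≤ Q := Nat.cast_nonneg Q
  calc |∑ a ∈ range R, ∑ b ∈ range R, G ((a : ZMod Q) - b)| ^ 2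
      ≤ R * ∑ a ∈ range R, (∑ b ∈ range R, G ((a : ZMod Q) - b)) ^ 2 := h2
    _ ≤ R * (2 * (Q : ℝ) * R) := mul_le_mul_of_nonneg_left (h3.trans h4) hR0
    _ ≤ Q * (2 * (Q : ℝ) * Q) := by gcongr
    _ = 2 * (Q : ℝ) ^ 3 := by ring

/-- the symbol of an integer -/
noncomputable def ch (m : ℕ) (n : ℤ) : ℝ := ((jacobiSym n m : ℤ) : ℝ)

lemma xi_ch (m n : ℕ) : xi m n = ((ch m n : ℝ) : ℂ) := by
  unfold Pool.Agent.Y710.CQ.xi ch
  push_cast
  rfl

lemma ch_le (m : ℕ) (n : ℤ) : |ch m n| ≤ 1 := by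
  unfold ch
  rcases jacobiSym.trichotomy n m with h | h | h <;> rw [h] <;> simp

lemma ch_leg {p : ℕ} [Fact p.Prime] (n : ℤ) :
    ch p n = ((quadraticChar (ZMod p) (n : ZMod p) : ℤ) : ℝ) := by
  unfold ch
  rw [← jacobiSym.legendreSym.to_jacobiSym]
  rfl

/-- **the correlation of the symbols of two primes, with Fejer weights** -/
theorem fejer {p q : ℕ} (hp : p.Prime) (hq : q.Prime) (hp2 : p ≠ 2) (hq2 : q ≠ 2) (hne : p ≠ q)
    (N : ℕ) : |∑ a ∈ range N, ∑ b ∈ range N, ch p ((a : ℤ) - b) * ch q ((a : ℤ) - b)| ^ 2 ≤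
      2 * ((p : ℝ) * q) ^ 3 := by
  have : Fact p.Prime := ⟨hp⟩
  have : Fact q.Prime := ⟨hq⟩
  have : NeZero (p * q) := ⟨Nat.mul_ne_zero hp.ne_zero hq.ne_zero⟩
  have hc : Nat.Coprime p q := (Nat.coprime_primes hp hq).2 hne
  set e := ZMod.chineseRemainder hc with he
  set G : ZMod (p * q) → ℝ := fun x => ((quadraticChar (ZMod p) (e x).1 : ℤ) : ℝ) *
    ((quadraticChar (ZMod q) (e x).2 : ℤ) : ℝ) with hG
  have hprod : ∀ (f : ZMod p → ℤ) (g : ZMod q → ℤ),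
      ∑ x : ZMod (p * q), ((f (e x).1 : ℤ) : ℝ) * ((g (e x).2 : ℤ) : ℝ) =
        (((∑ y, f y) * (∑ z, g z) : ℤ) : ℝ) := by
    intro f g
    have e2 := Equiv.sum_comp e.toEquiv (fun y : ZMod p × ZMod q =>
      ((f y.1 : ℤ) : ℝ) * ((g y.2 : ℤ) : ℝ))
    refine e2.trans ?_
    rw [Fintype.sum_prod_type, Finset.sum_mul_sum]
    push_cast
    rfl
  have h0 : ∑ x, G x = 0 := by
    rw [hG, hprod]
    have := quadraticChar_sum_zero (F := ZMod p) (by rwa [ZMod.ringChar_zmod_n])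
    rw [this, zero_mul, Int.cast_zero]
  have hcor : ∀ b c : ZMod (p * q), ∑ x, G (x - b) * G (x - c) ≤
      (if b = c then ((p * q : ℕ) : ℝ) else 0) + 1 := by
    intro b c
    have e1 : ∑ x, G (x - b) * G (x - c) = ∑ x : ZMod (p * q),
        (((quadraticChar (ZMod p) ((e x).1 - (e b).1) : ℤ) *
          quadraticChar (ZMod p) ((e x).1 - (e c).1) : ℤ) : ℝ) *
        (((quadraticChar (ZMod q) ((e x).2 - (e b).2) : ℤ) *
          quadraticChar (ZMod q) ((e x).2 - (e c).2) : ℤ) : ℝ) := by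
      refine Finset.sum_congr rfl fun x _ => ?_
      simp only [hG, map_sub, Prod.fst_sub, Prod.snd_sub]
      push_cast
      ring
    rw [e1, hprod (fun y => (quadraticChar (ZMod p) (y - (e b).1) : ℤ) *
      quadraticChar (ZMod p) (y - (e c).1)) (fun z => (quadraticChar (ZMod q) (z - (e b).2) : ℤ) *
      quadraticChar (ZMod q) (z - (e c).2)), paley hp2, paley hq2]
    have hp1 : (1 : ℝ) ≤ p := by exact_mod_cast hp.pos
    have hq1 : (1 : ℝ) ≤ q := by exact_mod_cast hq.pos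
    push_cast
    by_cases h1 : (e b).1 = (e c).1
    · by_cases h2 : (e b).2 = (e c).2
      · have h3 : b = c := e.injective (Prod.ext h1 h2)
        rw [if_pos h1, if_pos h2, if_pos h3]
        nlinarith
      · have h3 : ¬ b = c := fun h => h2 (by rw [h])
        rw [if_pos h1, if_neg h2, if_neg h3]
        nlinarith
    · have h3 : ¬ b = c := fun h => h1 (by rw [h])
      rw [if_neg h1, if_neg h3]
      by_cases h2 : (e b).2 = (e c).2
      · rw [if_pos h2]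
        nlinarith
      · rw [if_neg h2]
        norm_num
  have h := dbl G h0 hcor N
  have e3 : ∀ a b : ℕ, ch p ((a : ℤ) - b) * ch q ((a : ℤ) - b) = G ((a : ZMod (p * q)) - b) := by
    intro a b
    have h1 : e ((a : ZMod (p * q)) - b) = ((a : ZMod p) - b, (a : ZMod q) - b) := by
      rw [map_sub, map_natCast, map_natCast]
      rfl
    simp only [hG, h1, ch_leg]
    push_cast
    rfl
  rw [Finset.sum_congr rfl fun a _ => Finset.sum_congr rfl fun b _ => e3 a b]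
  refine h.trans (le_of_eq ?_)
  push_cast
  rfl

/-- the second moment of the symbols, with Fejer weights -/
theorem second2 {X : ℕ} (hX : 1 ≤ X) {T : Finset ℕ} (hT : ∀ q ∈ T, q.Prime ∧ q ≠ 2 ∧ q ≤ X)
    (eps : ℕ → ℂ) (heps : ∀ m, ‖eps m‖ ≤ 1) :
    ∑ n ∈ Icc 1 (X ^ 2), ‖∑ m ∈ T, eps m * xi m n‖ ^ 2 ≤ 6 * (T.card * (X : ℝ) ^ 2) := by
  have hXr : (1 : ℝ) ≤ X := by exact_mod_cast hX
  have hTc : (T.card : ℝ) ≤ X := Pool.Agent.Y710.CQ.card_le_of hT
  set D : Finset (ℕ × ℕ) := range (2 * X ^ 2) ×ˢ range (2 * X ^ 2) with hD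
  set z : ℕ → ℕ × ℕ → ℂ := fun m g => ((ch m ((g.1 : ℤ) - g.2) : ℝ) : ℂ) with hz
  have hz1 : ∀ m g, ‖z m g‖ ≤ 1 := fun m g => by
    simp only [hz, Complex.norm_real]
    exact ch_le _ _
  have hoff : ∀ m ∈ T, ∀ m' ∈ T, m ≠ m' → ‖∑ g ∈ D, z m g * conj (z m' g)‖ ≤ 2 * (X : ℝ) ^ 3 := by
    intro m hm m' hm' hne
    have e1 : ∑ g ∈ D, z m g * conj (z m' g) = ((∑ a ∈ range (2 * X ^ 2), ∑ b ∈ range (2 * X ^ 2),
        ch m ((a : ℤ) - b) * ch m' ((a : ℤ) - b) : ℝ) : ℂ) := by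
      rw [hD, Finset.sum_product]
      push_cast
      refine Finset.sum_congr rfl fun a _ => Finset.sum_congr rfl fun b _ => ?_
      simp only [hz, Complex.conj_ofReal]
    rw [e1, Complex.norm_real, Real.norm_eq_abs]
    have h1 := fejer (hT m hm).1 (hT m' hm').1 (hT m hm).2.1 (hT m' hm').2.1 hne (2 * X ^ 2)
    have c1 : (m : ℝ) ≤ X := by exact_mod_cast (hT m hm).2.2
    have c2 : (m' : ℝ) ≤ X := by exact_mod_cast (hT m' hm').2.2
    have h2 : ((m : ℝ) * m') ^ 3 ≤ ((X : ℝ) * X) ^ 3 := by gcongr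
    refine le_of_pow_le_pow_left₀ (n := 2) (by norm_num) (by positivity) (h1.trans ?_)
    nlinarith [pow_pos (lt_of_lt_of_le one_pos hXr) 6]
  have h1 := Pool.Agent.Y779.CX.second T D z (fun m _ g => hz1 m g) (2 * (X : ℝ) ^ 3) (by positivity)
    hoff eps heps
  have h2 : (T.card : ℝ) * D.card + (T.card : ℝ) ^ 2 * (2 * (X : ℝ) ^ 3) ≤
      6 * (T.card * (X : ℝ) ^ 4) := by
    have hDc : (D.card : ℝ) = 4 * (X : ℝ) ^ 4 := by
      rw [hD, Finset.card_product, Finset.card_range]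
      push_cast
      ring
    rw [hDc]
    have h3 : (T.card : ℝ) ^ 2 * (2 * (X : ℝ) ^ 3) ≤ 2 * (T.card * (X : ℝ) ^ 4) := by
      have h4 : (T.card : ℝ) ^ 2 * (2 * (X : ℝ) ^ 3) = (T.card : ℝ) * (2 * (X : ℝ) ^ 3) * T.card := by
        ring
      rw [h4]
      calc (T.card : ℝ) * (2 * (X : ℝ) ^ 3) * T.card ≤ (T.card : ℝ) * (2 * (X : ℝ) ^ 3) * X :=
            mul_le_mul_of_nonneg_left hTc (by positivity)
        _ = 2 * (T.card * (X : ℝ) ^ 4) := by ring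
    linarith
  have h3 : (X : ℝ) ^ 2 * ∑ n ∈ Icc 1 (X ^ 2), ‖∑ m ∈ T, eps m * xi m n‖ ^ 2 ≤
      ∑ g ∈ D, ‖∑ m ∈ T, eps m * z m g‖ ^ 2 := by
    have e1 : (X : ℝ) ^ 2 * ∑ n ∈ Icc 1 (X ^ 2), ‖∑ m ∈ T, eps m * xi m n‖ ^ 2 =
        ∑ g ∈ Icc 1 (X ^ 2) ×ˢ range (X ^ 2), ‖∑ m ∈ T, eps m * z m (g.2 + g.1, g.2)‖ ^ 2 := by
      rw [Finset.sum_product, Finset.mul_sum]
      refine Finset.sum_congr rfl fun n _ => ?_
      have e2 : ∀ b ∈ range (X ^ 2), ‖∑ m ∈ T, eps m * z m (b + n, b)‖ ^ 2 =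
          ‖∑ m ∈ T, eps m * xi m n‖ ^ 2 := by
        intro b _
        congr 2
        refine Finset.sum_congr rfl fun m _ => ?_
        rw [xi_ch]
        simp only [hz]
        congr 3
        push_cast
        ring
      rw [Finset.sum_congr rfl e2, Finset.sum_const, Finset.card_range, nsmul_eq_mul]
      push_cast
      rfl
    have hinj : Set.InjOn (fun g : ℕ × ℕ => (g.2 + g.1, g.2))
        ((Icc 1 (X ^ 2) ×ˢ range (X ^ 2) : Finset (ℕ × ℕ)) : Set (ℕ × ℕ)) := by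
      rintro ⟨n, b⟩ _ ⟨n', b'⟩ _ h
      simp only [Prod.mk.injEq] at h
      obtain ⟨h3, rfl⟩ := h
      rw [Nat.add_left_cancel h3]
    rw [e1, ← Finset.sum_image (f := fun g => ‖∑ m ∈ T, eps m * z m g‖ ^ 2) hinj]
    refine Finset.sum_le_sum_of_subset_of_nonneg ?_ fun _ _ _ => sq_nonneg _
    intro g hg
    obtain ⟨⟨n, b⟩, h4, rfl⟩ := Finset.mem_image.1 hg
    rw [Finset.mem_product, Finset.mem_Icc, Finset.mem_range] at h4
    rw [hD, Finset.mem_product, Finset.mem_range, Finset.mem_range]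
    have h5 := h4.1.2
    have h6 := h4.2
    simp only at h5 h6 ⊢
    omega
  have h4 : (X : ℝ) ^ 2 * ∑ n ∈ Icc 1 (X ^ 2), ‖∑ m ∈ T, eps m * xi m n‖ ^ 2 ≤
      (X : ℝ) ^ 2 * (6 * (T.card * (X : ℝ) ^ 2)) :=
    (h3.trans (h1.trans h2)).trans (le_of_eq (by ring))
  exact le_of_mul_le_mul_left h4 (by positivity)

/-- the method of moments with exponent two -/
theorem holder2 {ι κ R : Type} [CommMonoid R] (P : Finset ι) (L : Finset κ) (D : Finset R)
    (φ : κ → R) (xi : ι → R → ℂ) (h1 : ∀ m ∈ P, xi m 1 = 1)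
    (hm : ∀ m ∈ P, ∀ x y, xi m (x * y) = xi m x * xi m y)
    (hD : ∀ s : Fin 2 → κ, (∀ i, s i ∈ L) → ∏ i, φ (s i) ∈ D)
    (hu : ∀ x ∈ L, ∀ s : Fin 2 → κ, (∀ i, s i ∈ L) → φ x ∣ ∏ i, φ (s i) → ∃ i, x = s i)
    (c : ι → ℂ) (d : κ → ℂ) (hc : ∀ m, ‖c m‖ ≤ 1) (hd : ∀ x, ‖d x‖ ≤ 1) (W : ℝ)
    (hW : ∀ eps : ι → ℂ, (∀ m, ‖eps m‖ ≤ 1) → ∑ g ∈ D, ‖∑ m ∈ P, eps m * xi m g‖ ^ 2 ≤ W) :
    ‖∑ m ∈ P, ∑ x ∈ L, c m * d x * xi m (φ x)‖ ^ 4 ≤
      (P.card : ℝ) ^ 2 * ((L.card : ℝ) ^ 2 * (2 ^ 2 * W)) := by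
  classical
  set X : ι → ℂ := fun m => ∑ x ∈ L, d x * xi m (φ x) with hX
  set eps : ι → ℂ := fun m => if X m = 0 then 0 else ((‖X m‖ ^ 2 : ℝ) : ℂ) / (X m) ^ 2 with heps
  set Y : R → ℂ := fun g => ∑ m ∈ P, eps m * xi m g with hY
  set T : Finset (Fin 2 → κ) := Fintype.piFinset fun _ : Fin 2 => L with hT
  set M : ℝ := ∑ s ∈ T, ‖Y (∏ i, φ (s i))‖ with hM
  have hM0 : 0 ≤ M := sum_nonneg fun _ _ => norm_nonneg _
  have heps1 : ∀ m, ‖eps m‖ ≤ 1 := by
    intro m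
    simp only [heps]
    split_ifs with h
    · simp
    · rw [norm_div, Complex.norm_real, norm_pow, norm_pow, norm_norm, div_self]
      exact pow_ne_zero _ (norm_ne_zero_iff.2 h)
  have heps2 : ∀ m, eps m * (X m) ^ 2 = ((‖X m‖ ^ 2 : ℝ) : ℂ) := by
    intro m
    simp only [heps]
    split_ifs with h
    · rw [h]; simp
    · exact div_mul_cancel₀ _ (pow_ne_zero _ h)
  -- the first step
  have s1 : ‖∑ m ∈ P, ∑ x ∈ L, c m * d x * xi m (φ x)‖ ≤ ∑ m ∈ P, ‖X m‖ := by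
    refine (norm_sum_le _ _).trans (sum_le_sum fun m _ => ?_)
    have e : ∑ x ∈ L, c m * d x * xi m (φ x) = c m * X m := by
      rw [hX, mul_sum]
      exact sum_congr rfl fun x _ => by ring
    rw [e, norm_mul]
    exact mul_le_of_le_one_left (norm_nonneg _) (hc m)
  have s2 : (∑ m ∈ P, ‖X m‖) ^ 2 ≤ (P.card : ℝ) ^ 1 * ∑ m ∈ P, ‖X m‖ ^ 2 :=
    pow_sum_le_card_mul_sum_pow (s := P) (f := fun m => ‖X m‖) (fun _ _ => norm_nonneg _) 1
  have s3 : ∑ m ∈ P, ‖X m‖ ^ 2 ≤ M := by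
    have e1 : ((∑ m ∈ P, ‖X m‖ ^ 2 : ℝ) : ℂ) =
        ∑ s ∈ T, (∏ i, d (s i)) * Y (∏ i, φ (s i)) := by
      rw [Complex.ofReal_sum]
      have e2 : ∀ m ∈ P, ((‖X m‖ ^ 2 : ℝ) : ℂ) =
          ∑ s ∈ T, (∏ i, d (s i)) * (eps m * xi m (∏ i, φ (s i))) := by
        intro m hmP
        rw [← heps2 m]
        have e3 : (X m) ^ 2 = ∏ _i : Fin 2, ∑ x ∈ L, d x * xi m (φ x) := by
          rw [prod_const, card_univ, Fintype.card_fin]
        rw [e3, prod_univ_sum, mul_sum]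
        refine sum_congr rfl fun s _ => ?_
        rw [prod_mul_distrib, Pool.Agent.Y779.CX.xi_prod (xi m) (h1 m hmP) (hm m hmP)]
        ring
      rw [sum_congr rfl e2, sum_comm]
      refine sum_congr rfl fun s _ => ?_
      rw [hY, mul_sum]
    have e4 : ∑ m ∈ P, ‖X m‖ ^ 2 = ‖∑ s ∈ T, (∏ i, d (s i)) * Y (∏ i, φ (s i))‖ := by
      rw [← e1, Complex.norm_real, Real.norm_of_nonneg (sum_nonneg fun _ _ => by positivity)]
    rw [e4]
    refine (norm_sum_le _ _).trans (sum_le_sum fun s _ => ?_)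
    rw [norm_mul]
    refine mul_le_of_le_one_left (norm_nonneg _) ?_
    rw [norm_prod]
    exact prod_le_one (fun _ _ => norm_nonneg _) fun _ _ => hd _
  -- the second step
  have hcardT : (T.card : ℝ) = (L.card : ℝ) ^ 2 := by
    rw [hT, Fintype.card_piFinset]
    simp only [prod_const, card_univ, Fintype.card_fin]
    push_cast
    rfl
  have s4 : M ^ 2 ≤ T.card * ∑ s ∈ T, ‖Y (∏ i, φ (s i))‖ ^ 2 :=
    sq_sum_le_card_mul_sum_sq (s := T) (f := fun s => ‖Y (∏ i, φ (s i))‖)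
  have s5 : ∑ s ∈ T, ‖Y (∏ i, φ (s i))‖ ^ 2 ≤ 2 ^ 2 * W := by
    have h6 : ∑ s ∈ T, ‖Y (∏ i, φ (s i))‖ ^ 2 ≤ 2 ^ 2 * ∑ g ∈ D, ‖Y g‖ ^ 2 := by
      rw [← sum_fiberwise_of_maps_to (s := T) (t := D) (g := fun s => ∏ i, φ (s i))]
      · rw [mul_sum]
        refine sum_le_sum fun q _ => ?_
        have e : ∀ s ∈ T.filter (fun s => ∏ i, φ (s i) = q),
            ‖Y (∏ i, φ (s i))‖ ^ 2 = ‖Y q‖ ^ 2 := by
          intro s hs
          rw [(mem_filter.1 hs).2]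
        rw [sum_congr rfl e, sum_const, nsmul_eq_mul]
        refine mul_le_mul_of_nonneg_right ?_ (sq_nonneg _)
        exact_mod_cast Pool.Agent.Y779.CX.card_fact L φ 2 hu q
      · intro s hs
        rw [hT, Fintype.mem_piFinset] at hs
        exact hD s hs
    exact h6.trans (mul_le_mul_of_nonneg_left (hW eps heps1) (by norm_num))
  have s6 : M ^ 2 ≤ (L.card : ℝ) ^ 2 * (2 ^ 2 * W) := by
    refine s4.trans ?_
    rw [hcardT]
    exact mul_le_mul_of_nonneg_left s5 (by positivity)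
  have s7 : ‖∑ m ∈ P, ∑ x ∈ L, c m * d x * xi m (φ x)‖ ^ 2 ≤ (P.card : ℝ) ^ 1 * M :=
    (pow_le_pow_left₀ (norm_nonneg _) s1 2).trans
      (s2.trans (mul_le_mul_of_nonneg_left s3 (by positivity)))
  calc ‖∑ m ∈ P, ∑ x ∈ L, c m * d x * xi m (φ x)‖ ^ 4
      = (‖∑ m ∈ P, ∑ x ∈ L, c m * d x * xi m (φ x)‖ ^ 2) ^ 2 := by rw [← pow_mul]
    _ ≤ ((P.card : ℝ) ^ 1 * M) ^ 2 := pow_le_pow_left₀ (by positivity) s7 2
    _ = (P.card : ℝ) ^ 2 * M ^ 2 := by ring
    _ ≤ _ := mul_le_mul_of_nonneg_left s6 (by positivity)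

/-- **the bilinear estimate** -/
theorem bil4 {X : ℕ} (hX : 1 ≤ X) {T P : Finset ℕ} (hT : ∀ q ∈ T, q.Prime ∧ q ≠ 2 ∧ q ≤ X)
    (hP : ∀ p ∈ P, p.Prime ∧ p ≠ 2 ∧ p ≤ X)
    (c d : ℕ → ℂ) (hc : ∀ p, ‖c p‖ ≤ 1) (hd : ∀ q, ‖d q‖ ≤ 1) :
    ‖∑ m ∈ T, ∑ x ∈ P, c m * d x * xi m x‖ ^ 4 ≤
      24 * ((X : ℝ) ^ 2 * ((T.card : ℝ) ^ 3 * (P.card : ℝ) ^ 2)) := by
  have hu : ∀ x ∈ P, ∀ s : Fin 2 → ℕ, (∀ i, s i ∈ P) → id x ∣ ∏ i, id (s i) → ∃ i, x = s i := by
    intro x hx s hs hd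
    obtain ⟨j, -, hj⟩ := (Prime.dvd_finsetProd_iff (hP x hx).1.prime _).1 hd
    exact ⟨j, (Nat.prime_dvd_prime_iff_eq (hP x hx).1 (hP _ (hs j)).1).1 hj⟩
  have hD : ∀ s : Fin 2 → ℕ, (∀ i, s i ∈ P) → ∏ i, id (s i) ∈ Icc 1 (X ^ 2) := by
    intro s hs
    rw [Finset.mem_Icc]
    refine ⟨Nat.one_le_iff_ne_zero.2 (Finset.prod_ne_zero_iff.2 fun i _ => (hP _ (hs i)).1.ne_zero), ?_⟩
    refine (Finset.prod_le_prod' (g := fun _ => X) fun i _ => (hP _ (hs i)).2.2).trans ?_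
    rw [Finset.prod_const, Finset.card_univ, Fintype.card_fin]
  have h := holder2 T P (Icc 1 (X ^ 2)) id xi (fun m _ => xi_one m)
    (fun m _ => xi_mul m) hD hu c d hc hd _ (fun eps heps => second2 hX hT eps heps)
  refine h.trans (le_of_eq ?_)
  ring

end corr

end Pool.Agent.U120.DL
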