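import Pool.Agent.U120.DL.Lin
import Pool.Agent.Y356.CQ.EQ
import Pool.Agent.U120.DL.Bil
import Pool.Agent.R413.SQ.BOX
import Pool.Agent.Y698.SG.Wc

/-!
# The law for the tuples of primes of given types
-/

set_option autoImplicit false

open scoped Classical

namespace Pool.Agent.U120.DL

open Finset
open Pool.Agent.Y759.CX (fr)
open Pool.Agent.Y703.CQ (nr sg prs HB)
open Pool.Agent.Y710.CQ (xi sg_xi)
open Pool.Agent.Y219.CQ (F sp)
open Pool.Agent.R413.SQ (Gd Sol cu)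
open Pool.Agent.R413.SQ.BOX (nr_self nr_symm ext_sum)

/-- the primes `1 mod 4` -/
def P4 (p : ℕ) : Prop := p.Prime ∧ p % 4 = 1

/-- the saving -/
noncomputable def kap (X s : ℕ) : ℝ := 4 * √(X : ℝ) / (s : ℝ) ^ ((3 : ℝ) / 4)

lemma kap_nonneg (X s : ℕ) : 0 ≤ kap X s := by
  unfold kap
  positivity

lemma xi_self {p : ℕ} (hp : p.Prime) : xi p p = 0 := by
  unfold Pool.Agent.Y710.CQ.xi
  have : jacobiSym (p : ℤ) p = 0 := by
    rw [jacobiSym.eq_zero_iff]
    refine ⟨hp.ne_zero, ?_⟩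
    rw [Int.gcd_natCast_natCast, Nat.gcd_self]
    exact hp.one_lt.ne'
  rw [this]
  norm_num

lemma card_le_X {X : ℕ} {C : Finset ℕ} (hC : ∀ p ∈ C, P4 p ∧ p ≤ X) : C.card ≤ X := by
  have h5 : C ⊆ Finset.Icc 1 X := fun x hx => Finset.mem_Icc.2 ⟨(hC x hx).1.1.pos, (hC x hx).2⟩
  have h6 := Finset.card_le_card h5
  rw [Nat.card_Icc] at h6
  omega

/-- **the bilinear estimate for overlapping sets** -/
theorem bil2 {X s : ℕ} (hX : 1 ≤ X) (hs : 1 ≤ s) {P Q : Finset ℕ} (hP : ∀ p ∈ P, P4 p ∧ p ≤ X)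
    (hQ : ∀ p ∈ Q, P4 p ∧ p ≤ X) (hPs : P.card ≤ s) (hQs : Q.card ≤ s)
    (c d : ℕ → ℂ) (hc : ∀ p, ‖c p‖ ≤ 1) (hd : ∀ q, ‖d q‖ ≤ 1) :
    ‖∑ x ∈ P, ∑ y ∈ Q, c x * d y * sg (nr x y)‖ ≤ kap X s * ((s : ℝ) * s) := by
  have hXr : (1 : ℝ) ≤ X := by exact_mod_cast hX
  have hsr : (1 : ℝ) ≤ s := by exact_mod_cast hs
  have hPr : (P.card : ℝ) ≤ s := by exact_mod_cast hPs
  have hQr : (Q.card : ℝ) ≤ s := by exact_mod_cast hQs
  set Y : ℝ := √(X : ℝ) with hY
  set Z : ℝ := (s : ℝ) ^ ((1 : ℝ) / 4) with hZ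
  have hY1 : 1 ≤ Y := Real.one_le_sqrt.2 hXr
  have hY2 : Y ^ 2 = X := Real.sq_sqrt (by linarith)
  have hZ1 : 1 ≤ Z := Real.one_le_rpow hsr (by norm_num)
  have hZ0 : 0 < Z := by linarith
  have hZ4 : Z ^ 4 = s := by
    rw [hZ, ← Real.rpow_natCast, ← Real.rpow_mul (by linarith)]
    norm_num
  have hZ3 : Z ^ 3 = (s : ℝ) ^ ((3 : ℝ) / 4) := by
    rw [hZ, ← Real.rpow_natCast, ← Real.rpow_mul (by linarith)]
    norm_num
  have h1 : ∑ x ∈ P, ∑ y ∈ Q, c x * d y * sg (nr x y) =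
      ∑ x ∈ P, ∑ y ∈ Q, c x * d y * xi x y + ∑ x ∈ P, (if x ∈ Q then c x * d x else 0) := by
    rw [← Finset.sum_add_distrib]
    refine Finset.sum_congr rfl fun x hx => ?_
    have h2 : (if x ∈ Q then c x * d x else 0) = ∑ y ∈ Q, if y = x then c x * d y else 0 := by
      rw [Finset.sum_ite_eq' Q x]
    rw [h2, ← Finset.sum_add_distrib]
    refine Finset.sum_congr rfl fun y hy => ?_
    by_cases hxy : y = x
    · subst hxy
      rw [if_pos rfl, nr_self, xi_self (hP y hx).1.1]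
      unfold Pool.Agent.Y703.CQ.sg
      rw [if_pos rfl]
      ring
    · rw [if_neg hxy, add_zero, sg_xi (hP x hx).1.1 (hQ y hy).1.1 (Ne.symm hxy)]
  have h2 : ‖∑ x ∈ P, ∑ y ∈ Q, c x * d y * xi x y‖ ≤ 3 * (Y * Z ^ 5) := by
    have h3 := bil4 hX (T := P) (P := Q)
      (fun q hq => ⟨(hP q hq).1.1, by have := (hP q hq).1.2; rintro rfl; omega, (hP q hq).2⟩)
      (fun q hq => ⟨(hQ q hq).1.1, by have := (hQ q hq).1.2; rintro rfl; omega, (hQ q hq).2⟩)
      c d hc hd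
    have h4 : 24 * ((X : ℝ) ^ 2 * ((P.card : ℝ) ^ 3 * (Q.card : ℝ) ^ 2)) ≤ (3 * (Y * Z ^ 5)) ^ 4 := by
      have h5 : (P.card : ℝ) ^ 3 * (Q.card : ℝ) ^ 2 ≤ (s : ℝ) ^ 3 * (s : ℝ) ^ 2 := by gcongr
      calc 24 * ((X : ℝ) ^ 2 * ((P.card : ℝ) ^ 3 * (Q.card : ℝ) ^ 2)) ≤
          24 * ((X : ℝ) ^ 2 * ((s : ℝ) ^ 3 * (s : ℝ) ^ 2)) := by gcongr
        _ = 24 * (Y ^ 4 * Z ^ 20) := by
            rw [← hY2, ← hZ4]
            ring
        _ ≤ 81 * (Y ^ 4 * Z ^ 20) := by
            have : 0 ≤ Y ^ 4 * Z ^ 20 := by positivity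
            linarith
        _ = (3 * (Y * Z ^ 5)) ^ 4 := by ring
    exact le_of_pow_le_pow_left₀ (by norm_num) (by positivity) (h3.trans h4)
  have h3 : ‖∑ x ∈ P, (if x ∈ Q then c x * d x else 0)‖ ≤ s := by
    refine (norm_sum_le _ _).trans ?_
    have h4 : ∑ x ∈ P, ‖(if x ∈ Q then c x * d x else 0)‖ ≤ ∑ x ∈ P, (1 : ℝ) := by
      refine Finset.sum_le_sum fun x _ => ?_
      split_ifs
      · rw [norm_mul]
        exact mul_le_one₀ (hc x) (norm_nonneg _) (hd x)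
      · simp
    refine h4.trans ?_
    rw [Finset.sum_const, nsmul_eq_mul, mul_one]
    exact hPr
  have h4 : kap X s * ((s : ℝ) * s) = 4 * (Y * Z ^ 5) := by
    unfold kap
    rw [← hY, ← hZ3]
    have e : (s : ℝ) * s = Z ^ 3 * Z ^ 5 := by
      rw [← hZ4]
      ring
    rw [e]
    field_simp
  rw [h4, h1]
  have h5 : (s : ℝ) ≤ Y * Z ^ 5 := by
    rw [← hZ4]
    have h6 : Z ^ 4 ≤ Z ^ 5 := pow_le_pow_right₀ hZ1 (by norm_num)
    have h7 : Z ^ 5 ≤ Y * Z ^ 5 := le_mul_of_one_le_left (by positivity) hY1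
    exact h6.trans h7
  calc ‖∑ x ∈ P, ∑ y ∈ Q, c x * d y * xi x y + ∑ x ∈ P, (if x ∈ Q then c x * d x else 0)‖
      ≤ 3 * (Y * Z ^ 5) + s := (norm_add_le _ _).trans (add_le_add h2 h3)
    _ ≤ 4 * (Y * Z ^ 5) := by linarith

theorem hb {ι : Type} {X s : ℕ} (hX : 1 ≤ X) (hs : 1 ≤ s) (J1 : Finset ι) (C : ι → Finset ℕ)
    (hC : ∀ i, ∀ p ∈ C i, P4 p ∧ p ≤ X) (hCs : ∀ i, (C i).card ≤ s) :
    HB J1 C (fun _ => s) (kap X s) :=
  fun i l _ _ c d hc hd => bil2 hX hs (hC i) (hC l) (hCs i) (hCs l) c d hc hd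

section tuple
variable {ι : Type} [Fintype ι] [LinearOrder ι]

lemma prs_card (J1 : Finset ι) : (prs J1).card ≤ Fintype.card ι ^ 2 := by
  refine (Finset.card_le_univ _).trans ?_
  rw [Fintype.card_prod, sq]

/-- **equidistribution of the symbols of the tuples** -/
theorem equi {X s : ℕ} (hX : 1 ≤ X) (hs : 1 ≤ s) (J1 : Finset ι) (C : ι → Finset ℕ)
    (hC : ∀ i, ∀ p ∈ C i, P4 p ∧ p ≤ X) (hCs : ∀ i, (C i).card ≤ s) (Q : (prs J1 → F) → Prop) :
    |(((Fintype.piFinset C).filter fun p => Q fun e => nr (p e.1.1) (p e.1.2)).card : ℝ) -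
      fr Q * ∏ j, ((C j).card : ℝ)| ≤
      2 ^ (Fintype.card ι ^ 2) * (kap X s * (s : ℝ) ^ Fintype.card ι) := by
  have h := Pool.Agent.Y356.CQ.t_EQ ι J1 C (fun _ => s) (kap X s) (kap_nonneg X s)
    hCs (hb hX hs J1 C hC hCs) Q
  have e1 : fr Q = ((univ.filter Q).card : ℝ) / 2 ^ (prs J1).card := by
    unfold Pool.Agent.Y759.CX.fr
    have h6 : Nat.card (prs J1 → F) = 2 ^ (prs J1).card := by
      rw [Nat.card_fun, Nat.card_eq_fintype_card, Nat.card_eq_fintype_card, ZMod.card,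
        Fintype.card_coe]
    rw [h6, Nat.card_eq_fintype_card, Fintype.card_subtype]
    push_cast
    rfl
  rw [e1]
  refine h.trans ?_
  rw [Finset.prod_const, Finset.card_univ]
  exact mul_le_mul_of_nonneg_right (pow_le_pow_right₀ (by norm_num) (prs_card J1))
    (mul_nonneg (kap_nonneg X s) (by positivity))

omit [LinearOrder ι] in
/-- the good sets, in terms of the tuples -/
theorem gd_sys (f : ℕ → ZMod 2) {J1 : Finset ι} {p : ι → ℕ} (hp : Function.Injective p)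
    (hJ : ∀ i, Pool.Agent.R413.SQ.mk (p i) = 1 ↔ i ∈ J1) :
    Gd f (univ.image p) ↔ Sys J1 (fun k l => nr (p k) (p l)) (fun k => f (p k)) := by
  have hsum : ∀ h : ℕ → ZMod 2, ∑ q ∈ univ.image p, h q = ∑ l, h (p l) := fun h =>
    Finset.sum_image fun a _ b _ hab => hp hab
  constructor
  · intro h y hy h1 l
    set x : ℕ → ZMod 2 := fun n => if h : ∃ l, p l = n then y h.choose else 0 with hx
    have e2 : ∀ l, x (p l) = y l := by
      intro l
      have hex : ∃ l', p l' = p l := ⟨l, rfl⟩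
      simp only [hx]
      rw [dif_pos hex]
      exact congrArg y (hp hex.choose_spec)
    have e4 : ∀ l, cu x (p l) = y l := by
      intro l
      unfold Pool.Agent.R413.SQ.cu
      split_ifs with h8
      · exact e2 l
      · exact (hy l fun hl => h8 ((hJ l).2 hl)).symm
    have hs : Sol f (univ.image p) x := by
      intro q hq hm
      obtain ⟨k, -, rfl⟩ := Finset.mem_image.1 hq
      rw [hsum]
      simp only [e2, e4]
      exact h1 k ((hJ k).1 hm)
    by_cases hl : l ∈ J1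
    · rw [← e2]
      exact h x hs _ (Finset.mem_image_of_mem _ (Finset.mem_univ _)) ((hJ l).2 hl)
    · exact hy l hl
  · intro h x hx q hq hm
    obtain ⟨k, -, rfl⟩ := Finset.mem_image.1 hq
    have hcu : ∀ q : ℕ, Pool.Agent.R413.SQ.mk q = 1 → cu x q = x q := by
      intro q hq
      unfold Pool.Agent.R413.SQ.cu
      rw [if_pos hq]
    have h1 := h (fun l => cu x (p l)) (fun k hk => by
        have h8 : ¬ Pool.Agent.R413.SQ.mk (p k) = 1 := fun h8 => hk ((hJ k).1 h8)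
        unfold Pool.Agent.R413.SQ.cu
        rw [if_neg h8]) (fun k hk => by
        have h8 := (hJ k).2 hk
        have := hx (p k) (Finset.mem_image_of_mem _ (Finset.mem_univ _)) h8
        rw [hsum] at this
        rw [← hcu (p k) h8] at this
        exact this) k
    rw [← hcu _ hm]
    exact h1

omit [LinearOrder ι] in
lemma sys_congr {J1 : Finset ι} {a a' : ι → ι → F} {g g' : ι → F}
    (ha : ∀ k ∈ J1, ∀ y : ι → F, ∀ z : F, ∑ l, a k l * (y l + z) = ∑ l, a' k l * (y l + z))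
    (hg : ∀ k ∈ J1, g k = g' k) : Sys J1 a g ↔ Sys J1 a' g' := by
  unfold Sys
  refine forall₂_congr fun y _ => ?_
  have : (∀ k ∈ J1, ∑ l, a k l * (y l + y k) + g k * y k = 0) ↔
      ∀ k ∈ J1, ∑ l, a' k l * (y l + y k) + g' k * y k = 0 :=
    forall₂_congr fun k hk => by rw [ha k hk y (y k), hg k hk]
  rw [this]

/-- the matrix from the symbols, an index outside of `J1` -/
lemma sys_out {J1 : Finset ι} {p : ι → ℕ} (hp : ∀ i, P4 (p i))
    (hJ : ∀ i, Pool.Agent.R413.SQ.mk (p i) = 1 ↔ i ∈ J1) (g : ι → F) :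
    Sys J1 (fun k l => nr (p k) (p l)) g ↔
      Sys J1 (Pool.Agent.Y703.CQ.ext fun e : prs J1 => nr (p e.1.1) (p e.1.2)) g :=
  sys_congr (fun k hk y z => (ext_sum (fun i => ⟨hp i, by
    have := (hp i).2
    intro h
    rw [h] at this
    omega⟩) hJ k hk y z).symm) fun _ _ => rfl

/-- the matrix from the symbols, all the indices -/
lemma sys_all {J1 : Finset ι} {j0 : ι} (hm : ∀ k, k ∈ J1 ↔ k ≠ j0) {p : ι → ℕ}
    (hp : ∀ i, P4 (p i)) (g : ι → F) :
    Sys univ (fun k l => nr (p k) (p l)) g ↔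
      Sys univ (ef j0 fun e : prs J1 => nr (p e.1.1) (p e.1.2)) g := by
  have h2 : ∀ i, p i ≠ 2 := fun i h => by
    have := (hp i).2
    rw [h] at this
    omega
  have hs : ∀ k l, nr (p k) (p l) = nr (p l) (p k) := fun k l =>
    nr_symm (hp k).1 (hp k).2 (hp l).1 (h2 l)
  have key : ∀ k l, k ∈ J1 → Pool.Agent.Y703.CQ.ext
      (fun e : prs J1 => nr (p e.1.1) (p e.1.2)) k l = nr (p k) (p l) := by
    intro k l hk
    unfold Pool.Agent.Y703.CQ.ext
    by_cases h : (k, l) ∈ prs J1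
    · rw [dif_pos h]
    · rw [dif_neg h]
      by_cases hlk : l = k
      · subst hlk
        rw [dif_neg (fun h' => h h'.1), nr_self]
      · have h1 : l ∈ J1 ∧ ¬ k < l := by
          by_contra hcon
          apply h
          unfold Pool.Agent.Y703.CQ.prs
          refine Finset.mem_filter.2 ⟨Finset.mem_univ _, hk, hlk, fun hl => ?_⟩
          by_contra hkl
          exact hcon ⟨hl, hkl⟩
        have h2 : (l, k) ∈ prs J1 := by
          unfold Pool.Agent.Y703.CQ.prs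
          exact Finset.mem_filter.2 ⟨Finset.mem_univ _, h1.1, fun h => hlk h.symm,
            fun _ => lt_of_le_of_ne (not_lt.1 h1.2) hlk⟩
        rw [dif_pos ⟨h2, hk⟩]
        exact hs l k
  refine sys_congr (fun k _ y z => Finset.sum_congr rfl fun l _ => ?_) fun _ _ => rfl
  congr 1
  unfold ef
  by_cases hk : k = j0
  · rw [if_pos hk]
    by_cases hl : l = j0
    · rw [if_pos hl, hk, hl, nr_self]
    · rw [if_neg hl, key l j0 ((hm l).2 hl), hk]
      exact hs j0 l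
  · rw [if_neg hk]
    exact (key k l ((hm k).2 hk)).symm

/-- the chance for a type, in terms of the index sets -/
noncomputable def chT (J1 : Finset ι) (g : ι → F) : ℝ :=
  if J1 = univ then (if (∀ k, g k = 0) then 0 else if ∑ k, g k = 1 then sp (Fintype.card ι - 1)
        else sp (Fintype.card ι - 2)) else sp J1.card

/-- **the law for the tuples of a type** -/
theorem tuple [Nonempty ι] {X s : ℕ} (hX : 1 ≤ X) (hs : 1 ≤ s) (J1 : Finset ι) (C : ι → Finset ℕ)
    (hC : ∀ i, ∀ p ∈ C i, P4 p ∧ p ≤ X) (hCs : ∀ i, (C i).card ≤ s)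
    (hJ : ∀ i, ∀ p ∈ C i, (Pool.Agent.R413.SQ.mk p = 1 ↔ i ∈ J1)) (g : ι → F) :
    |(((Fintype.piFinset C).filter fun p => Sys J1 (fun k l => nr (p k) (p l)) g).card : ℝ) -
      chT J1 g * ∏ j, ((C j).card : ℝ)| ≤
      2 ^ (Fintype.card ι ^ 2) * (kap X s * (s : ℝ) ^ Fintype.card ι) := by
  by_cases h : J1 = univ
  · obtain ⟨j0⟩ := (inferInstance : Nonempty ι)
    have hm : ∀ k, k ∈ (univ.erase j0 : Finset ι) ↔ k ≠ j0 := fun k => by
      rw [mem_erase]
      exact ⟨fun h => h.1, fun h => ⟨h, mem_univ _⟩⟩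
    have h1 := equi hX hs (univ.erase j0) C hC hCs fun α => Sys univ (ef j0 α) g
    rw [fr_full Pool.Agent.Y839.CQ.t_SYM hm g] at h1
    have e1 : ((Fintype.piFinset C).filter fun p => Sys J1 (fun k l => nr (p k) (p l)) g) =
        (Fintype.piFinset C).filter fun p => Sys univ
          (ef j0 fun e : prs (univ.erase j0) => nr (p e.1.1) (p e.1.2)) g := by
      refine Finset.filter_congr fun p hp => ?_
      rw [Fintype.mem_piFinset] at hp
      rw [h]
      exact sys_all hm (fun i => (hC i _ (hp i)).1) g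
    have e2 : chT J1 g = if (∀ k, g k = 0) then 0 else if ∑ k, g k = 1 then
        sp (Fintype.card ι - 1) else sp (Fintype.card ι - 2) := by
      unfold chT
      rw [if_pos h]
    rw [e1, e2]
    exact h1
  · have h0 : ∃ l, l ∉ J1 := by
      by_contra hc
      push Not at hc
      exact h (Finset.eq_univ_iff_forall.2 hc)
    have h1 := equi hX hs J1 C hC hCs fun α => Sys J1 (Pool.Agent.Y703.CQ.ext α) g
    rw [fr_out Pool.Agent.Y839.CQ.t_SYM J1 h0 g] at h1
    have e1 : ((Fintype.piFinset C).filter fun p => Sys J1 (fun k l => nr (p k) (p l)) g) =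
        (Fintype.piFinset C).filter fun p => Sys J1
          (Pool.Agent.Y703.CQ.ext fun e : prs J1 => nr (p e.1.1) (p e.1.2)) g := by
      refine Finset.filter_congr fun p hp => ?_
      rw [Fintype.mem_piFinset] at hp
      exact sys_out (fun i => (hC i _ (hp i)).1) (fun i => hJ i _ (hp i)) g
    have e2 : chT J1 g = sp J1.card := by
      unfold chT
      rw [if_neg h]
    rw [e1, e2]
    exact h1

end tuple

end Pool.Agent.U120.DL
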