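import Pool.Agent.U120.DL.Sub
import Pool.Agent.U120.MF.Fld

/-!
# The law of the matchings
-/

set_option autoImplicit false

open scoped Classical

namespace Pool.Agent.U120.DL

open Finset Filter
open Pool.Agent.Y759.CX (fr)
open Pool.Agent.Y703.CQ (nr prs)
open Pool.Agent.Y219.CQ (F mem_prs ext_symm ext_pos ext_neg ext_self)
open Pool.Agent.R413.SQ (Gd)
open Pool.Agent.R413.SQ.BOX (nr_self nr_symm)
open Pool.Agent.Y698.SG (n4)
open Pool.Agent.U120.MF (Spl Mt nr_zero nr_one n4_one spl_iff not_fourth)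

/-- the number of the matchings of `c` points: graphs of degree at most one -/
noncomputable def mat (c : ℕ) : ℕ :=
  Nat.card {G : SimpleGraph (Fin c) // ∀ u v w, G.Adj u v → G.Adj u w → v = w}

/-- the chance of a matching -/
noncomputable def chM (a b c : ℕ) : ℝ := if b = 0 then (mat c : ℝ) / 2 ^ (c * a + c * (c - 1) / 2) else 0

section pat
variable {ι : Type} [Fintype ι] [LinearOrder ι]

/-- the pattern of a matching -/
def Pat (J1 : Finset ι) (a : ι → ι → F) : Prop :=
  (∀ k ∈ J1, ∀ l, l ∉ J1 → a k l = 0) ∧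
    ∀ k ∈ J1, ∀ l ∈ J1, ∀ m ∈ J1, a k l = 1 → a k m = 1 → l = m

/-- the symbols of a tuple -/
lemma ext_nr {J1 : Finset ι} {p : ι → ℕ} (hp : ∀ i, P4 (p i)) {k : ι} (l : ι) (hk : k ∈ J1) :
    Pool.Agent.Y703.CQ.ext (fun e : prs J1 => nr (p e.1.1) (p e.1.2)) k l = nr (p k) (p l) := by
  have h2 : ∀ i, p i ≠ 2 := fun i h => by
    have := (hp i).2
    rw [h] at this
    omega
  by_cases h : (k, l) ∈ prs J1
  · rw [ext_pos J1 _ h]
  · by_cases hlk : l = k
    · rw [hlk, ext_self, nr_self]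
    · have h1 : l ∈ J1 ∧ ¬ k < l := by
        by_contra hcon
        apply h
        rw [mem_prs]
        refine ⟨hk, hlk, fun hl => ?_⟩
        by_contra hkl
        exact hcon ⟨hl, hkl⟩
      have h3 : (l, k) ∈ prs J1 := (mem_prs J1 l k).2
        ⟨h1.1, fun h => hlk h.symm, fun _ => lt_of_le_of_ne (not_lt.1 h1.2) hlk⟩
      rw [ext_neg J1 _ h3 hk]
      exact nr_symm (hp l).1 (hp l).2 (hp k).1 (h2 k)

lemma pat_ext {J1 : Finset ι} {p : ι → ℕ} (hp : ∀ i, P4 (p i)) :
    Pat J1 (fun k l => nr (p k) (p l)) ↔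
      Pat J1 (Pool.Agent.Y703.CQ.ext fun e : prs J1 => nr (p e.1.1) (p e.1.2)) := by
  unfold Pat
  refine and_congr (forall₂_congr fun k hk => forall₂_congr fun l _ => ?_)
    (forall₂_congr fun k hk => forall₂_congr fun l _ => forall₂_congr fun m _ => ?_)
  · rw [ext_nr hp l hk]
  · rw [ext_nr hp l hk, ext_nr hp m hk]

/-- the patterns and the graphs -/
theorem card_pat (J1 : Finset ι) :
    Nat.card {α : prs J1 → F // Pat J1 (Pool.Agent.Y703.CQ.ext α)} = mat J1.card := by
  have e1 : {α : prs J1 → F // Pat J1 (Pool.Agent.Y703.CQ.ext α)} ≃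
      {G : SimpleGraph J1 // ∀ u v w, G.Adj u v → G.Adj u w → v = w} :=
    { toFun := fun α => ⟨{
          Adj := fun k l => k ≠ l ∧ Pool.Agent.Y703.CQ.ext α.1 k l = 1
          symm := ⟨fun k l h => ⟨h.1.symm, by rw [← ext_symm J1 α.1 k.2 l.2]; exact h.2⟩⟩
          loopless := ⟨fun k h => h.1 rfl⟩ }, fun u v w h1 h2 =>
            Subtype.ext (α.2.2 u u.2 v v.2 w w.2 h1.2 h2.2)⟩
      invFun := fun G => ⟨fun e => if h : e.1.2 ∈ J1 then
          (if G.1.Adj ⟨e.1.1, ((mem_prs J1 e.1.1 e.1.2).1 e.2).1⟩ ⟨e.1.2, h⟩ then 1 else 0) else 0, by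
            have key : ∀ k (hk : k ∈ J1) l, Pool.Agent.Y703.CQ.ext (fun e : prs J1 =>
                if h : e.1.2 ∈ J1 then (if G.1.Adj ⟨e.1.1, ((mem_prs J1 e.1.1 e.1.2).1 e.2).1⟩
                  ⟨e.1.2, h⟩ then (1 : F) else 0) else 0) k l =
                if h : l ∈ J1 then (if G.1.Adj ⟨k, hk⟩ ⟨l, h⟩ then 1 else 0) else 0 := by
              intro k hk l
              by_cases h : (k, l) ∈ prs J1
              · rw [ext_pos J1 _ h]
              · by_cases hlk : l = k
                · subst hlk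
                  rw [ext_self, dif_pos hk, if_neg (G.1.irrefl)]
                · have h1 : l ∈ J1 ∧ ¬ k < l := by
                    by_contra hcon
                    apply h
                    rw [mem_prs]
                    refine ⟨hk, hlk, fun hl => ?_⟩
                    by_contra hkl
                    exact hcon ⟨hl, hkl⟩
                  have h3 : (l, k) ∈ prs J1 := (mem_prs J1 l k).2
                    ⟨h1.1, fun h => hlk h.symm, fun _ => lt_of_le_of_ne (not_lt.1 h1.2) hlk⟩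
                  rw [ext_neg J1 _ h3 hk, dif_pos hk, dif_pos h1.1]
                  simp only [G.1.adj_comm]
            refine ⟨fun k hk l hl => by rw [key k hk, dif_neg hl], fun k hk l hl m hm h1 h2 => ?_⟩
            rw [key k hk, dif_pos hl] at h1
            rw [key k hk, dif_pos hm] at h2
            have h3 : G.1.Adj ⟨k, hk⟩ ⟨l, hl⟩ := by
              by_contra h4
              rw [if_neg h4] at h1
              exact zero_ne_one h1
            have h4 : G.1.Adj ⟨k, hk⟩ ⟨m, hm⟩ := by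
              by_contra h4
              rw [if_neg h4] at h2
              exact zero_ne_one h2
            exact congrArg Subtype.val (G.2 _ _ _ h3 h4)⟩
      left_inv := by
        rintro ⟨α, hα⟩
        refine Subtype.ext (funext fun e => ?_)
        obtain ⟨⟨k, l⟩, he⟩ := e
        have h1 := (mem_prs J1 k l).1 he
        have h2 := ext_pos J1 α he
        by_cases hl : l ∈ J1
        · have h3 : (⟨k, h1.1⟩ : J1) ≠ ⟨l, hl⟩ := fun h => h1.2.1 (congrArg Subtype.val h).symm
          refine (dif_pos hl).trans ?_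
          rcases f2 (α ⟨(k, l), he⟩) with h4 | h4
          · refine (if_neg fun h => ?_).trans h4.symm
            have h5 : Pool.Agent.Y703.CQ.ext α k l = 1 := h.2
            rw [h2, h4] at h5
            exact zero_ne_one h5
          · refine (if_pos ?_).trans h4.symm
            exact ⟨h3, h2.trans h4⟩
        · refine (dif_neg hl).trans ?_
          show 0 = α ⟨(k, l), he⟩
          rw [← h2]
          exact (hα.1 k h1.1 l hl).symm
      right_inv := by
        rintro ⟨G, hG⟩
        refine Subtype.ext (SimpleGraph.ext (funext fun k => funext fun l => propext ?_))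
        have key : Pool.Agent.Y703.CQ.ext (fun e : prs J1 =>
                if h : e.1.2 ∈ J1 then (if G.Adj ⟨e.1.1, ((mem_prs J1 e.1.1 e.1.2).1 e.2).1⟩
                  ⟨e.1.2, h⟩ then (1 : F) else 0) else 0) k l =
                if G.Adj k l then 1 else 0 := by
          by_cases h : ((k : ι), (l : ι)) ∈ prs J1
          · rw [ext_pos J1 _ h, dif_pos l.2]
          · by_cases hlk : (l : ι) = k
            · have hlk' : l = k := Subtype.ext hlk
              rw [hlk', ext_self, if_neg (G.irrefl)]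
            · have h1 : ¬ (k : ι) < l := by
                intro hcon
                apply h
                rw [mem_prs]
                exact ⟨k.2, hlk, fun _ => hcon⟩
              have h3 : ((l : ι), (k : ι)) ∈ prs J1 := (mem_prs J1 l k).2
                ⟨l.2, fun h => hlk h.symm, fun _ => lt_of_le_of_ne (not_lt.1 h1) hlk⟩
              rw [ext_neg J1 _ h3 k.2, dif_pos k.2]
              simp only [G.adj_comm]
        show (k ≠ l ∧ Pool.Agent.Y703.CQ.ext (fun e : prs J1 =>
                if h : e.1.2 ∈ J1 then (if G.Adj ⟨e.1.1, ((mem_prs J1 e.1.1 e.1.2).1 e.2).1⟩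
                  ⟨e.1.2, h⟩ then (1 : F) else 0) else 0) k l = 1) ↔ G.Adj k l
        rw [key]
        constructor
        · rintro ⟨-, h⟩
          by_contra h4
          rw [if_neg h4] at h
          exact zero_ne_one h
        · intro h
          exact ⟨G.ne_of_adj h, if_pos h⟩ }
  rw [Nat.card_congr e1]
  unfold mat
  have e2 : J1 ≃ Fin J1.card := by
    have h := Fintype.equivFin J1
    rwa [Fintype.card_coe] at h
  refine Nat.card_congr ((e2.simpleGraph).subtypeEquiv fun G => ?_)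
  constructor
  · intro h u v w h1 h2
    have h3 : G.Adj (e2.symm u) (e2.symm v) := h1
    have h4 : G.Adj (e2.symm u) (e2.symm w) := h2
    exact e2.symm.injective (h _ _ _ h3 h4)
  · intro h u v w h1 h2
    have h3 : (e2.simpleGraph G).Adj (e2 u) (e2 v) := by
      show G.Adj (e2.symm (e2 u)) (e2.symm (e2 v))
      rw [Equiv.symm_apply_apply, Equiv.symm_apply_apply]
      exact h1
    have h4 : (e2.simpleGraph G).Adj (e2 u) (e2 w) := by
      show G.Adj (e2.symm (e2 u)) (e2.symm (e2 w))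
      rw [Equiv.symm_apply_apply, Equiv.symm_apply_apply]
      exact h2
    exact e2.injective (h _ _ _ h3 h4)

/-- the number of the pairs -/
theorem prs_eq (J1 : Finset ι) : (prs J1).card =
    J1.card * (Fintype.card ι - J1.card) + J1.card * (J1.card - 1) / 2 := by
  have h1 : prs J1 = (J1 ×ˢ J1ᶜ) ∪ (J1 ×ˢ J1).filter fun e => e.1 < e.2 := by
    ext ⟨k, l⟩
    rw [mem_prs, Finset.mem_union, Finset.mem_product, Finset.mem_filter, Finset.mem_product,
      Finset.mem_compl]
    constructor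
    · rintro ⟨h1, h2, h3⟩
      by_cases hl : l ∈ J1
      · exact Or.inr ⟨⟨h1, hl⟩, h3 hl⟩
      · exact Or.inl ⟨h1, hl⟩
    · rintro (⟨h1, h2⟩ | ⟨⟨h1, h2⟩, h3⟩)
      · exact ⟨h1, fun h => h2 (h ▸ h1), fun h => absurd h h2⟩
      · exact ⟨h1, ne_of_gt h3, fun _ => h3⟩
  have h2 : Disjoint (J1 ×ˢ J1ᶜ) ((J1 ×ˢ J1).filter fun e => e.1 < e.2) := by
    rw [Finset.disjoint_left]
    rintro ⟨k, l⟩ h3 h4
    rw [Finset.mem_product, Finset.mem_compl] at h3
    rw [Finset.mem_filter, Finset.mem_product] at h4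
    exact h3.2 h4.1.2
  have h3 : 2 * ((J1 ×ˢ J1).filter fun e => e.1 < e.2).card = J1.card * (J1.card - 1) := by
    have h4 : ((J1 ×ˢ J1).filter fun e => e.2 < e.1).card =
        ((J1 ×ˢ J1).filter fun e => e.1 < e.2).card := by
      refine Finset.card_bij (fun e _ => (e.2, e.1)) ?_ ?_ ?_
      · rintro ⟨k, l⟩ h
        rw [Finset.mem_filter, Finset.mem_product] at h ⊢
        exact ⟨⟨h.1.2, h.1.1⟩, h.2⟩
      · rintro ⟨k, l⟩ _ ⟨k', l'⟩ _ h
        simp only [Prod.mk.injEq] at h
        rw [h.1, h.2]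
      · rintro ⟨k, l⟩ h
        rw [Finset.mem_filter, Finset.mem_product] at h
        exact ⟨(l, k), Finset.mem_filter.2 ⟨Finset.mem_product.2 ⟨h.1.2, h.1.1⟩, h.2⟩, rfl⟩
    have h5 : J1.offDiag = ((J1 ×ˢ J1).filter fun e => e.1 < e.2) ∪
        (J1 ×ˢ J1).filter fun e => e.2 < e.1 := by
      ext ⟨k, l⟩
      rw [Finset.mem_offDiag, Finset.mem_union, Finset.mem_filter, Finset.mem_filter,
        Finset.mem_product]
      constructor
      · rintro ⟨h6, h7, h8⟩
        rcases lt_or_gt_of_ne h8 with h9 | h9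
        · exact Or.inl ⟨⟨h6, h7⟩, h9⟩
        · exact Or.inr ⟨⟨h6, h7⟩, h9⟩
      · rintro (⟨⟨h6, h7⟩, h8⟩ | ⟨⟨h6, h7⟩, h8⟩)
        · exact ⟨h6, h7, ne_of_lt h8⟩
        · exact ⟨h6, h7, ne_of_gt h8⟩
    have h6 : Disjoint ((J1 ×ˢ J1).filter fun e => e.1 < e.2)
        ((J1 ×ˢ J1).filter fun e => e.2 < e.1) := by
      rw [Finset.disjoint_left]
      rintro ⟨k, l⟩ h7 h8
      exact lt_asymm (Finset.mem_filter.1 h7).2 (Finset.mem_filter.1 h8).2
    have h7 := congrArg Finset.card h5
    rw [Finset.card_union_of_disjoint h6, h4, Finset.offDiag_card] at h7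
    rw [Nat.mul_sub, mul_one, h7]
    ring
  rw [h1, Finset.card_union_of_disjoint h2, Finset.card_product, Finset.card_compl]
  omega

/-- the condition for a type -/
def QM (t : ι → Fin 3) (a : ι → ι → F) : Prop := (∀ i, t i ≠ 1) ∧ Pat (jt t) a

theorem fr_pat (t : ι → Fin 3) :
    fr (fun α : prs (jt t) → F => QM t (Pool.Agent.Y703.CQ.ext α)) =
      chM (ct 0 t) (ct 1 t) (ct 2 t) := by
  unfold chM QM
  by_cases h : ct 1 t = 0
  · rw [if_pos h]
    have h1 : ∀ i, t i ≠ 1 := by
      unfold ct at h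
      rw [Finset.card_eq_zero, Finset.filter_eq_empty_iff] at h
      exact fun i => h (Finset.mem_univ i)
    have h2 : (jt t).card = ct 2 t := by rw [jt_card, h, zero_add]
    have h3 : ct 0 t = Fintype.card ι - (jt t).card := by
      have h4 : ct 0 t + (jt t).card = Fintype.card ι := by
        unfold ct jt
        rw [Finset.card_filter_add_card_filter_not, Finset.card_univ]
      omega
    have h4 : fr (fun α : prs (jt t) → F => (∀ i, t i ≠ 1) ∧ Pat (jt t)
        (Pool.Agent.Y703.CQ.ext α)) =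
        fr (fun α : prs (jt t) → F => Pat (jt t) (Pool.Agent.Y703.CQ.ext α)) := by
      congr 1
      funext α
      exact propext ⟨fun h => h.2, fun h => ⟨h1, h⟩⟩
    rw [h4]
    unfold Pool.Agent.Y759.CX.fr
    rw [card_pat, h2]
    have h6 : Nat.card (prs (jt t) → F) = 2 ^ (prs (jt t)).card := by
      rw [Nat.card_fun, Nat.card_eq_fintype_card, Nat.card_eq_fintype_card, ZMod.card,
        Fintype.card_coe]
    rw [h6, prs_eq, ← h3, h2]
    push_cast
    rfl
  · rw [if_neg h]
    have h1 : ¬ ∀ i, t i ≠ 1 := by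
      intro h2
      apply h
      unfold ct
      rw [Finset.card_eq_zero, Finset.filter_eq_empty_iff]
      exact fun i _ => h2 i
    unfold Pool.Agent.Y759.CX.fr
    have : IsEmpty {α : prs (jt t) → F // (∀ i, t i ≠ 1) ∧ Pat (jt t)
        (Pool.Agent.Y703.CQ.ext α)} := ⟨fun α => h1 α.2.1⟩
    rw [Nat.card_of_isEmpty, Nat.cast_zero, zero_div]

lemma chM_bd (t : ι → Fin 3) : 0 ≤ chM (ct 0 t) (ct 1 t) (ct 2 t) ∧
    chM (ct 0 t) (ct 1 t) (ct 2 t) ≤ 1 := by
  rw [← fr_pat]
  exact ⟨Pool.Agent.Y759.CX.fr_nonneg _, Pool.Agent.Y759.CX.fr_le_one _⟩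

/-- the deviation of a tuple -/
noncomputable def dvM (p : ι → ℕ) : ℝ :=
  (if QM (fun i => lab (p i)) (fun k l => nr (p k) (p l)) then 1 else 0) -
    chM (ct 0 fun i => lab (p i)) (ct 1 fun i => lab (p i)) (ct 2 fun i => lab (p i))

lemma dvM_bd (p : ι → ℕ) : |dvM p| ≤ 1 := by
  unfold dvM
  obtain ⟨h1, h2⟩ := chM_bd fun i => lab (p i)
  rw [abs_le]
  split_ifs
  · exact ⟨by linarith, by linarith⟩
  · exact ⟨by linarith, by linarith⟩

/-- **all the tuples** -/
theorem dvM_sum {X s : ℕ} (hX : 1 ≤ X) (hs : 1 ≤ s) (C : ι → Finset ℕ)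
    (hS : ∀ i, ∀ p ∈ C i, P4 p ∧ p ≤ X) (hCs : ∀ i, (C i).card ≤ s) :
    |∑ p ∈ Fintype.piFinset C, dvM p| ≤
      3 ^ Fintype.card ι * (2 ^ (Fintype.card ι ^ 2) * (kap X s * (s : ℝ) ^ Fintype.card ι)) := by
  have h1 : ∑ p ∈ Fintype.piFinset C, dvM p =
      ∑ t : ι → Fin 3, ∑ p ∈ Fintype.piFinset fun i => (C i).filter fun q => lab q = t i, dvM p := by
    rw [← Finset.sum_fiberwise_of_maps_to (g := fun (p : ι → ℕ) i => lab (p i))
      (t := (univ : Finset (ι → Fin 3))) (fun _ _ => Finset.mem_univ _)]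
    refine Finset.sum_congr rfl fun t _ => Finset.sum_congr ?_ fun _ _ => rfl
    ext p
    simp only [Finset.mem_filter, Fintype.mem_piFinset]
    constructor
    · rintro ⟨h2, h3⟩ i
      exact ⟨h2 i, congrFun h3 i⟩
    · intro h2
      exact ⟨fun i => (h2 i).1, funext fun i => (h2 i).2⟩
  rw [h1]
  refine (Finset.abs_sum_le_sum_abs _ _).trans ?_
  have h2 : ∀ t : ι → Fin 3,
      |∑ p ∈ Fintype.piFinset fun i => (C i).filter fun q => lab q = t i, dvM p| ≤
        2 ^ (Fintype.card ι ^ 2) * (kap X s * (s : ℝ) ^ Fintype.card ι) := by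
    intro t
    have h3 := equi hX hs (jt t) (fun i => (C i).filter fun q => lab q = t i)
      (fun i p hp => hS i p (Finset.mem_filter.1 hp).1)
      (fun i => (Finset.card_filter_le _ _).trans (hCs i))
      (fun α => QM t (Pool.Agent.Y703.CQ.ext α))
    rw [fr_pat] at h3
    refine (le_of_eq ?_).trans h3
    congr 1
    have e1 : ∀ p ∈ Fintype.piFinset fun i => (C i).filter fun q => lab q = t i,
        dvM p = (if QM t (Pool.Agent.Y703.CQ.ext fun e : prs (jt t) => nr (p e.1.1) (p e.1.2))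
          then 1 else 0) - chM (ct 0 t) (ct 1 t) (ct 2 t) := by
      intro p hp
      rw [Fintype.mem_piFinset] at hp
      have e2 : (fun i => lab (p i)) = t := funext fun i => (Finset.mem_filter.1 (hp i)).2
      have e3 : QM t (fun k l => nr (p k) (p l)) ↔
          QM t (Pool.Agent.Y703.CQ.ext fun e : prs (jt t) => nr (p e.1.1) (p e.1.2)) :=
        and_congr Iff.rfl (pat_ext fun i => (hS i _ (Finset.mem_filter.1 (hp i)).1).1)
      unfold dvM
      rw [e2]
      congr 1
      by_cases h : QM t (fun k l => nr (p k) (p l))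
      · rw [if_pos h, if_pos (e3.1 h)]
      · rw [if_neg h, if_neg fun h' => h (e3.2 h')]
    rw [Finset.sum_congr rfl e1, Finset.sum_sub_distrib, Finset.sum_boole, Finset.sum_const,
      nsmul_eq_mul, Fintype.card_piFinset]
    push_cast
    ring
  refine (Finset.sum_le_sum fun t _ => h2 t).trans ?_
  rw [Finset.sum_const, Finset.card_univ, nsmul_eq_mul, Fintype.card_fun, Fintype.card_fin]
  push_cast
  exact le_rfl

end pat

/-- the chance of a set to be a matching -/
noncomputable def chMU (U : Finset ℕ) : ℝ := chM (cl 0 U) (cl 1 U) (cl 2 U)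

/-- the matchings, in terms of the tuples -/
theorem mt_iff {ι : Type} [Fintype ι] [LinearOrder ι] {p : ι → ℕ} (hp : ∀ i, P4 (p i))
    (hi : Function.Injective p) : Mt ((univ.image p : Finset ℕ) : Set ℕ) ↔
      QM (fun i => lab (p i)) (fun k l => nr (p k) (p l)) := by
  have hmem : ∀ x, x ∈ ((univ.image p : Finset ℕ) : Set ℕ) ↔ ∃ i, p i = x := by
    intro x
    rw [Finset.mem_coe, Finset.mem_image]
    exact ⟨fun ⟨i, _, h⟩ => ⟨i, h⟩, fun ⟨i, h⟩ => ⟨i, Finset.mem_univ _, h⟩⟩
  have hspl : ∀ i, Spl (p i) ↔ i ∈ jt fun i => lab (p i) := by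
    intro i
    rw [spl_iff (hp i), ← lab_mk]
    unfold jt
    rw [Finset.mem_filter]
    exact ⟨fun h => ⟨Finset.mem_univ _, h⟩, fun h => h.2⟩
  have hf : ∀ i, lab (p i) ≠ 1 ↔ ¬ ∃ y : ZMod (p i), y ^ 4 = -7 := by
    intro i
    by_cases hs : Spl (p i)
    · rw [← n4_one]
      have h4 := (spl_iff (hp i)).1 hs
      unfold lab
      rw [if_pos h4]
      by_cases h5 : n4 (p i) = 1
      · rw [if_pos h5]
        exact ⟨fun _ => h5, fun _ => by decide⟩
      · rw [if_neg h5]
        exact ⟨fun h => absurd rfl h, fun h => absurd h h5⟩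
    · have h4 : ¬ Pool.Agent.R413.SQ.mk (p i) = 1 := fun h => hs ((spl_iff (hp i)).2 h)
      unfold lab
      rw [if_neg h4]
      exact ⟨fun _ => not_fourth hs, fun _ => by decide⟩
  constructor
  · rintro ⟨h1, h2, h3⟩
    refine ⟨fun i => (hf i).2 (h1 _ ((hmem _).2 ⟨i, rfl⟩)), fun k hk l hl => ?_,
      fun k hk l hl m hm g1 g2 => ?_⟩
    · exact nr_zero.2 (h2 _ ((hmem _).2 ⟨k, rfl⟩) ((hspl k).2 hk) _ ((hmem _).2 ⟨l, rfl⟩)
        fun h => hl ((hspl l).1 h))
    · exact hi (h3 _ ((hmem _).2 ⟨k, rfl⟩) ((hspl k).2 hk) _ ((hmem _).2 ⟨l, rfl⟩)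
        ((hspl l).2 hl) _ ((hmem _).2 ⟨m, rfl⟩) ((hspl m).2 hm) (nr_one.1 g1) (nr_one.1 g2))
  · rintro ⟨h1, h2, h3⟩
    refine ⟨fun x hx => ?_, fun x hx sx y hy sy => ?_, fun x hx sx y hy sy z hz sz g1 g2 => ?_⟩
    · obtain ⟨i, rfl⟩ := (hmem x).1 hx
      exact (hf i).1 (h1 i)
    · obtain ⟨i, rfl⟩ := (hmem x).1 hx
      obtain ⟨j, rfl⟩ := (hmem y).1 hy
      exact nr_zero.1 (h2 i ((hspl i).1 sx) j fun h => sy ((hspl j).2 h))
    · obtain ⟨i, rfl⟩ := (hmem x).1 hx
      obtain ⟨j, rfl⟩ := (hmem y).1 hy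
      obtain ⟨m, rfl⟩ := (hmem z).1 hz
      rw [h3 i ((hspl i).1 sx) j ((hspl j).1 sy) m ((hspl m).1 sz) (nr_one.2 g1) (nr_one.2 g2)]

/-- the deviation of a set -/
noncomputable def dM (U : Finset ℕ) : ℝ := (if Mt (U : Set ℕ) then 1 else 0) - chMU U

/-- **the law for the matchings in boxes, with an explicit error** -/
theorem boxM {k X s : ℕ} (hk : 1 ≤ k) (hX : 1 ≤ X) (hs : 1 ≤ s) (C : Fin k → Finset ℕ)
    (hC : ∀ i, ∀ p ∈ C i, P4 p ∧ p ≤ X) (hCs : ∀ i, (C i).card ≤ s) :
    |∑ p ∈ (Fintype.piFinset C).filter Function.Injective, dM (univ.image p)| ≤ er k X s := by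
  have h2 : ∑ p ∈ (Fintype.piFinset C).filter Function.Injective, dM (univ.image p) =
      ∑ p ∈ (Fintype.piFinset C).filter Function.Injective, dvM p := by
    refine Finset.sum_congr rfl fun p hp => ?_
    rw [Finset.mem_filter, Fintype.mem_piFinset] at hp
    have e1 : ∀ j, cl j (univ.image p) = ct j fun i => lab (p i) := by
      intro j
      unfold cl ct
      rw [Finset.filter_image, Finset.card_image_of_injective _ hp.2]
    have e2 := mt_iff (fun i => (hC i _ (hp.1 i)).1) hp.2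
    unfold dM dvM chMU
    rw [e1, e1, e1]
    congr 1
    by_cases h : Mt ((univ.image p : Finset ℕ) : Set ℕ)
    · rw [if_pos h, if_pos (e2.1 h)]
    · rw [if_neg h, if_neg fun h' => h (e2.2 h')]
  rw [h2]
  have h4 := dvM_sum hX hs C hC hCs
  rw [Fintype.card_fin] at h4
  exact to_inj hk hX hs C hCs dvM dvM_bd h4

/-- **the law for the matchings** -/
theorem lawM {X : ℕ} (hX : 1 ≤ X) {S : Finset ℕ} (hS : ∀ p ∈ S, P4 p ∧ p ≤ X) {k : ℕ} (hk : 1 ≤ k)
    (hn : S.Nonempty) :
    |∑ U ∈ S.powersetCard k, dM U| ≤ er k X S.card / k.factorial := by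
  have h1 := sum_inj S k dM
  have h2 := boxM hk hX (Finset.card_pos.2 hn) (fun _ => S) (fun _ => hS) fun _ => le_rfl
  have hk0 : (0 : ℝ) < k.factorial := by exact_mod_cast Nat.factorial_pos k
  rw [h1, abs_mul, abs_of_pos hk0] at h2
  rw [le_div_iff₀ hk0, mul_comm]
  exact h2

end Pool.Agent.U120.DL
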