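import Pool.Agent.Y219.CQ.LA
import Pool.Agent.Y839.CQ.SYM

/-!
# The exact number of the good patterns of symbols
-/

set_option autoImplicit false

open scoped Classical

namespace Pool.Agent.U120.DL

open Function Module Finset
open Pool.Agent.Y759.CX (fr fr_equiv fr_comp)
open Pool.Agent.Y703.CQ (prs)
open Pool.Agent.Y219.CQ (F Sy sp Ns fr_Ns pa pa_surj mL mL_symm bf bf_apply bf_symm bf_add char2 zx zx_of
  zx_not sum_zx ext_symm ext_self ext_add ext_pos mem_prs)

lemma f2 (a : F) : a = 0 ∨ a = 1 := by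
  revert a
  decide

section abs
variable {V : Type} [AddCommGroup V] [Module F V] [Finite V]

/-- translation -/
lemma fr_shift (S0 : Sy V) (P : Sy V → Prop) : fr (fun S : Sy V => P (S + S0)) = fr P :=
  fr_equiv (Equiv.addRight S0) P

/-- the bordered form -/
def Bo (S : V →ₗ[F] V →ₗ[F] F) (φ : V →ₗ[F] F) (σ : F) : Prop :=
  ∀ (x0 : F) (x : V), (∀ y, x0 * φ y + S x y = 0) → σ * x0 + φ x = 0 → x0 = 0 ∧ x = 0

/-- the square of a linear form -/
noncomputable def sqf (φ : V →ₗ[F] F) : V →ₗ[F] V →ₗ[F] F :=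
  LinearMap.mk₂ F (fun x y => φ x * φ y)
    (fun x y z => by rw [map_add]; ring)
    (fun a x y => by rw [map_smul, smul_eq_mul, smul_eq_mul]; ring)
    (fun x y z => by rw [map_add]; ring)
    (fun a x y => by rw [map_smul, smul_eq_mul, smul_eq_mul]; ring)

theorem bo_one (h : Pool.Agent.Y703.CQ.S_SYM) (φ : V →ₗ[F] F) :
    fr (fun S : Sy V => Bo S.1 φ 1) = sp (finrank F V) := by
  rw [← fr_Ns (V := V) h]
  let S0 : Sy V := ⟨sqf φ, fun x y => mul_comm _ _⟩
  rw [← fr_shift S0 (fun S : Sy V => Ns S.1)]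
  congr 1
  funext S
  apply propext
  have e : ∀ x y, (S + S0).1 x y = S.1 x y + φ x * φ y := fun _ _ => rfl
  constructor
  · intro hb x hx
    refine (hb (φ x) x (fun y => ?_) ?_).2
    · have := hx y
      rw [e] at this
      rw [add_comm]
      exact this
    · rw [one_mul]
      exact char2 _
  · intro hn x0 x h1 h2
    rw [one_mul] at h2
    have h3 : x0 = φ x := by
      have := congrArg (· + φ x) h2
      simp only [add_assoc, char2, add_zero, zero_add] at this
      exact this
    have h4 : x = 0 := hn x fun y => by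
      rw [e, add_comm, ← h3]
      exact h1 y
    refine ⟨?_, h4⟩
    rw [h3, h4, map_zero]

theorem bo_zero (h : Pool.Agent.Y703.CQ.S_SYM) (φ : V →ₗ[F] F) (hφ : φ ≠ 0) :
    fr (fun S : Sy V => Bo S.1 φ 0) = sp (finrank F V - 1) := by
  obtain ⟨v, hv⟩ : ∃ v, φ v = 1 := by
    by_contra hc
    push Not at hc
    refine hφ (LinearMap.ext fun x => ?_)
    rcases f2 (φ x) with h1 | h1
    · exact h1
    · exact absurd h1 (hc x)
  let H : Submodule F V := LinearMap.ker φ
  have hH : ∀ x, x ∈ H ↔ φ x = 0 := fun x => LinearMap.mem_ker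
  have hrk : finrank F H = finrank F V - 1 := by
    have h1 := LinearMap.finrank_range_add_finrank_ker φ
    have h2 : LinearMap.range φ = ⊤ := by
      rw [LinearMap.range_eq_top]
      intro c
      exact ⟨c • v, by rw [map_smul, hv, smul_eq_mul, mul_one]⟩
    rw [h2, finrank_top, Module.finrank_self] at h1
    have h3 : finrank F H = finrank F (LinearMap.ker φ) := rfl
    omega
  obtain ⟨p, hp⟩ := LinearMap.exists_leftInverse_of_injective H.subtype
    (LinearMap.ker_eq_bot.2 H.injective_subtype)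
  have hp' : ∀ z : H, p (z : V) = z := fun z => LinearMap.congr_fun hp z
  let ρ : Sy V →+ Sy H :=
    { toFun := fun S => ⟨S.1.compl₁₂ H.subtype H.subtype, fun x y => S.2 _ _⟩
      map_zero' := rfl
      map_add' := fun _ _ => rfl }
  have hρ : Surjective ρ := by
    intro T
    refine ⟨⟨T.1.compl₁₂ p p, fun x y => T.2 _ _⟩, Subtype.ext (LinearMap.ext fun x =>
      LinearMap.ext fun y => ?_)⟩
    show T.1 (p (x : V)) (p (y : V)) = T.1 x y
    rw [hp', hp']
  rw [← hrk, ← fr_Ns (V := H) h, ← fr_comp ρ hρ (fun S : Sy H => Ns S.1)]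
  congr 1
  funext S
  apply propext
  have e : ∀ x y : H, (ρ S).1 x y = S.1 x y := fun _ _ => rfl
  constructor
  · intro hb x hx
    have h1 := hb (S.1 x v) x (fun y => ?_) (by rw [zero_mul, zero_add]; exact (hH _).1 x.2)
    · exact Subtype.ext h1.2
    · have h2 : y - φ y • v ∈ H := by
        rw [hH, map_sub, map_smul, hv, smul_eq_mul, mul_one, sub_self]
      have h3 := hx ⟨_, h2⟩
      rw [e] at h3
      have h4 : S.1 x (y - φ y • v) = S.1 x y - φ y * S.1 x v := by
        rw [map_sub, map_smul, smul_eq_mul]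
      have h5 : S.1 x y = φ y * S.1 x v := by
        have h6 : S.1 x (y - φ y • v) = 0 := h3
        rw [h4, sub_eq_zero] at h6
        exact h6
      rw [h5, mul_comm]
      exact char2 _
  · intro hn x0 x h1 h2
    rw [zero_mul, zero_add] at h2
    have h3 : (⟨x, (hH x).2 h2⟩ : H) = 0 := hn _ fun y => by
      rw [e]
      have h4 := h1 y
      rw [(hH y).1 y.2, mul_zero, zero_add] at h4
      exact h4
    have h4 : x = 0 := congrArg Subtype.val h3
    refine ⟨?_, h4⟩
    have h5 := h1 v
    rw [hv, mul_one, h4, map_zero, LinearMap.zero_apply, add_zero] at h5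
    exact h5

theorem bo_none : fr (fun S : Sy V => Bo S.1 (0 : V →ₗ[F] F) 0) = 0 := by
  have : IsEmpty {S : Sy V // Bo S.1 (0 : V →ₗ[F] F) 0} := by
    refine ⟨fun S => ?_⟩
    have h1 := S.2 1 0 (fun y => by
      rw [LinearMap.zero_apply, mul_zero, map_zero, LinearMap.zero_apply, add_zero])
      (by rw [LinearMap.zero_apply, zero_mul, zero_add])
    exact one_ne_zero h1.1
  unfold Pool.Agent.Y759.CX.fr
  rw [Nat.card_of_isEmpty, Nat.cast_zero, zero_div]

end abs

section sys
variable {J : Type} [Fintype J] [LinearOrder J]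

/-- the system -/
def Sys (J1 : Finset J) (a : J → J → F) (g : J → F) : Prop :=
  ∀ y : J → F, (∀ k, k ∉ J1 → y k = 0) →
    (∀ k ∈ J1, ∑ l, a k l * (y l + y k) + g k * y k = 0) → ∀ l, y l = 0

/-- the matrix, with the diagonal `g` -/
noncomputable def mG (J1 : Finset J) (g : J → F) (k l : J1) : F := if k = l then g k else 0

lemma mG_symm (J1 : Finset J) (g : J → F) (k l : J1) : mG J1 g k l = mG J1 g l k := by
  unfold mG
  by_cases h : k = l
  · rw [h]
  · rw [if_neg h, if_neg (Ne.symm h)]

/-- the rows -/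
lemma row (J1 : Finset J) (g : J → F) (α : prs J1 → F) (y : J1 → F) (l : J1) :
    ∑ k, Pool.Agent.Y703.CQ.ext α l k * (zx J1 y k + zx J1 y l) + g l * zx J1 y l =
      ∑ k, y k * (mL J1 α k l + mG J1 g k l) := by
  simp only [mul_add, sum_add_distrib, sum_zx, zx_of]
  have h1 : ∑ k, y k * mL J1 α k l = ∑ k : J1, Pool.Agent.Y703.CQ.ext α l k * y k +
      (∑ k : J, Pool.Agent.Y703.CQ.ext α l k) * y l := by
    unfold Pool.Agent.Y219.CQ.mL
    simp only [mul_add, sum_add_distrib]
    congr 1
    · exact sum_congr rfl fun k _ => by rw [ext_symm J1 α k.2 l.2, mul_comm]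
    · rw [sum_eq_single l]
      · rw [if_pos rfl, mul_comm]
      · intro u _ hu
        rw [if_neg hu, mul_zero]
      · intro h
        exact absurd (mem_univ _) h
  have h2 : ∑ k, y k * mG J1 g k l = g l * y l := by
    unfold mG
    rw [sum_eq_single l]
    · rw [if_pos rfl, mul_comm]
    · intro u _ hu
      rw [if_neg hu, mul_zero]
    · intro h
      exact absurd (mem_univ _) h
  rw [h1, h2, ← sum_mul]

/-- the form of the system -/
noncomputable def fo (J1 : Finset J) (α : prs J1 → F) (g : J → F) : (J1 → F) →ₗ[F] (J1 → F) →ₗ[F] F :=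
  bf fun k l => mL J1 α k l + mG J1 g k l

lemma bf_eval (J1 : Finset J) (M : J1 → J1 → F) (x y : J1 → F) :
    bf M x y = ∑ l, (∑ k, x k * M k l) * y l := by
  rw [bf_apply, sum_comm]
  exact sum_congr rfl fun l _ => by rw [sum_mul]

lemma bf_zero_iff (J1 : Finset J) (M : J1 → J1 → F) (x : J1 → F) (c : J1 → F) :
    (∀ y, ∑ l, c l * y l + bf M x y = 0) ↔ ∀ l, c l + ∑ k, x k * M k l = 0 := by
  constructor
  · intro h l
    have h1 := h (Pi.single l 1)
    rw [bf_eval, ← sum_add_distrib] at h1
    rw [sum_eq_single l] at h1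
    · rw [Pi.single_eq_same, mul_one, mul_one] at h1
      exact h1
    · intro b _ hb
      rw [Pi.single_eq_of_ne hb, mul_zero, mul_zero, add_zero]
    · intro h2
      exact absurd (mem_univ _) h2
  · intro h y
    rw [bf_eval, ← sum_add_distrib]
    refine sum_eq_zero fun l _ => ?_
    rw [← add_mul, h l, zero_mul]

lemma zx_restr (J1 : Finset J) (y : J → F) (hy : ∀ k, k ∉ J1 → y k = 0) :
    zx J1 (fun u => y u) = y := by
  funext u
  by_cases hu : u ∈ J1
  · exact zx_of J1 (fun u => y u) ⟨u, hu⟩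
  · rw [zx_not J1 _ hu, hy u hu]

theorem sys_iff (J1 : Finset J) (g : J → F) (α : prs J1 → F) :
    Sys J1 (Pool.Agent.Y703.CQ.ext α) g ↔ Ns (fo J1 α g) := by
  constructor
  · intro h x hx
    have h1 : ∀ l : J1, ∑ k, x k * (mL J1 α k l + mG J1 g k l) = 0 := by
      have h2 := (bf_zero_iff J1 (fun k l => mL J1 α k l + mG J1 g k l) x 0).1 (fun y => by
        simp only [Pi.zero_apply, zero_mul, sum_const_zero, zero_add]
        exact hx y)
      intro l
      have h3 := h2 l
      rwa [Pi.zero_apply, zero_add] at h3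
    have h2 := h (zx J1 x) (fun k hk => zx_not J1 x hk) (fun k hk => by
      rw [row J1 g α x ⟨k, hk⟩]
      exact h1 _)
    funext u
    rw [← zx_of J1 x u, h2]
    rfl
  · intro h y hy h1 l
    have e := zx_restr J1 y hy
    have h2 : (fun u : J1 => y u) = 0 := h _ fun z => by
      have h3 := (bf_zero_iff J1 (fun k l => mL J1 α k l + mG J1 g k l) (fun u => y u) 0).2
        (fun l => by
          rw [Pi.zero_apply, zero_add, ← row J1 g α (fun u => y u) l, e]
          exact h1 l l.2) z
      simp only [Pi.zero_apply, zero_mul, sum_const_zero, zero_add] at h3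
      exact h3
    by_cases hl : l ∈ J1
    · exact congrFun h2 ⟨l, hl⟩
    · exact hy l hl

/-- the constant part of the form -/
noncomputable def gS (J1 : Finset J) (g : J → F) : Sy (J1 → F) :=
  ⟨bf (mG J1 g), bf_symm _ (mG_symm J1 g)⟩

lemma fo_eq (J1 : Finset J) (α : prs J1 → F) (g : J → F) :
    fo J1 α g = (pa J1 α + gS J1 g).1 := by
  unfold fo
  rw [bf_add]
  rfl

lemma rk_fun (J1 : Finset J) : finrank F (J1 → F) = J1.card := by
  rw [finrank_fintype_fun_eq_card, Fintype.card_coe]

/-- **an index outside of `J1`** -/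
theorem fr_out (h : Pool.Agent.Y703.CQ.S_SYM) (J1 : Finset J) (h0 : ∃ l, l ∉ J1) (g : J → F) :
    fr (fun α : prs J1 → F => Sys J1 (Pool.Agent.Y703.CQ.ext α) g) = sp J1.card := by
  rw [← rk_fun J1, ← fr_Ns (V := J1 → F) h, ← fr_shift (gS J1 g) (fun S : Sy (J1 → F) => Ns S.1),
    ← fr_comp (pa J1) (pa_surj J1 h0) (fun S : Sy (J1 → F) => Ns (S + gS J1 g).1)]
  congr 1
  funext α
  rw [sys_iff, fo_eq]

/-- the full symmetric matrix, from the indices different from `j0` -/
noncomputable def ef {J1 : Finset J} (j0 : J) (α : prs J1 → F) (k l : J) : F :=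
  if k = j0 then (if l = j0 then 0 else Pool.Agent.Y703.CQ.ext α l j0) else
    Pool.Agent.Y703.CQ.ext α k l

lemma ef_symm {J1 : Finset J} {j0 : J} (hm : ∀ k, k ∈ J1 ↔ k ≠ j0) (α : prs J1 → F) (k l : J) :
    ef j0 α k l = ef j0 α l k := by
  unfold ef
  by_cases hk : k = j0
  · by_cases hl : l = j0
    · rw [if_pos hk, if_pos hl, if_pos hl, if_pos hk]
    · rw [if_pos hk, if_neg hl, if_neg hl, hk]
  · by_cases hl : l = j0
    · rw [if_neg hk, if_pos hl, if_neg hk, hl]
    · rw [if_neg hk, if_neg hl]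
      exact ext_symm _ α ((hm k).2 hk) ((hm l).2 hl)

/-- the linear form -/
noncomputable def lf (J1 : Finset J) (g : J → F) : (J1 → F) →ₗ[F] F where
  toFun y := ∑ l : J1, g l * y l
  map_add' x y := by
    rw [← sum_add_distrib]
    exact sum_congr rfl fun l _ => by rw [Pi.add_apply, mul_add]
  map_smul' c x := by
    rw [RingHom.id_apply, smul_eq_mul, mul_sum]
    exact sum_congr rfl fun l _ => by rw [Pi.smul_apply, smul_eq_mul]; ring

/-- a symmetric Laplacian has zero sum -/
lemma lap_sum (a : J → J → F) (ha : ∀ k l, a k l = a l k) (y : J → F) :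
    ∑ k, ∑ l, a k l * (y l + y k) = 0 := by
  simp only [mul_add, sum_add_distrib]
  have h1 : ∑ k, ∑ l, a k l * y l = ∑ k, ∑ l, a k l * y k := by
    rw [sum_comm]
    exact sum_congr rfl fun k _ => sum_congr rfl fun l _ => by rw [ha]
  rw [h1]
  exact char2 _

theorem sys_full {J1 : Finset J} {j0 : J} (hm : ∀ k, k ∈ J1 ↔ k ≠ j0) (g : J → F)
    (α : prs J1 → F) :
    Sys univ (ef j0 α) g ↔ Bo (fo J1 α g) (lf J1 g) (∑ k, g k) := by
  have hu : J1 = univ.erase j0 := by
    ext k
    rw [hm, mem_erase]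
    exact ⟨fun h => ⟨h, mem_univ _⟩, fun h => h.1⟩
  -- the rows of the full system after the substitution
  have key : ∀ (x0 : F) (x : J1 → F) (k : J) (hk : k ∈ J1),
      ∑ l, ef j0 α k l * ((x0 + zx J1 x l) + (x0 + zx J1 x k)) + g k * (x0 + zx J1 x k) =
        x0 * g k + ∑ i, x i * (mL J1 α i ⟨k, hk⟩ + mG J1 g i ⟨k, hk⟩) := by
    intro x0 x k hk
    rw [← row J1 g α x ⟨k, hk⟩]
    have h1 : ∀ l, (x0 + zx J1 x l) + (x0 + zx J1 x k) = zx J1 x l + zx J1 x k := by
      intro l
      calc (x0 + zx J1 x l) + (x0 + zx J1 x k) = (x0 + x0) + (zx J1 x l + zx J1 x k) := by ring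
        _ = _ := by rw [char2, zero_add]
    have h2 : ∀ l, ef j0 α k l = Pool.Agent.Y703.CQ.ext α k l := fun l => by
      unfold ef
      rw [if_neg ((hm k).1 hk)]
    simp only [h1, h2]
    ring
  have tot : ∀ y : J → F, ∑ k, (∑ l, ef j0 α k l * (y l + y k) + g k * y k) = ∑ k, g k * y k := by
    intro y
    rw [sum_add_distrib, lap_sum _ (ef_symm hm α), zero_add]
  have hsum : ∀ (x0 : F) (x : J1 → F), ∑ k, g k * (x0 + zx J1 x k) =
      (∑ k, g k) * x0 + lf J1 g x := by
    intro x0 x
    simp only [mul_add, sum_add_distrib, sum_zx]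
    rw [← sum_mul]
    rfl
  constructor
  · intro h x0 x h1 h2
    have h3 := (bf_zero_iff J1 (fun k l => mL J1 α k l + mG J1 g k l) x
      (fun l => x0 * g l)).1 (fun y => by
        have h4 := h1 y
        have h5 : x0 * lf J1 g y = ∑ l : J1, x0 * g l * y l := by
          show x0 * ∑ l : J1, g l * y l = _
          rw [mul_sum]
          exact sum_congr rfl fun l _ => by ring
        rw [h5] at h4
        exact h4)
    have h4 : ∀ k ∈ J1, ∑ l, ef j0 α k l * ((x0 + zx J1 x l) + (x0 + zx J1 x k)) +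
        g k * (x0 + zx J1 x k) = 0 := fun k hk => by
      rw [key x0 x k hk]
      exact h3 ⟨k, hk⟩
    have h5 := tot fun l => x0 + zx J1 x l
    rw [hsum, h2, ← add_sum_erase univ _ (mem_univ j0), ← hu, sum_eq_zero (s := J1) (fun k hk =>
      h4 k hk), add_zero] at h5
    have h6 := h (fun l => x0 + zx J1 x l) (fun k hk => absurd (mem_univ k) hk) (fun k _ => by
      by_cases hk : k ∈ J1
      · exact h4 k hk
      · have : k = j0 := by
          by_contra hc
          exact hk ((hm k).2 hc)
        rw [this]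
        exact h5)
    have h7 : x0 = 0 := by
      have h8 := h6 j0
      have h9 : j0 ∉ J1 := fun h' => (hm j0).1 h' rfl
      simp only [zx_not J1 x h9, add_zero] at h8
      exact h8
    refine ⟨h7, funext fun u => ?_⟩
    have h8 := h6 u
    simp only [h7, zero_add, zx_of] at h8
    exact h8
  · intro h y _ h1 l
    have hy : ∀ k, y k = y j0 + zx J1 (fun u => y j0 + y u) k := by
      intro k
      by_cases hk : k ∈ J1
      · have := zx_of J1 (fun u => y j0 + y u) ⟨k, hk⟩
        simp only at this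
        rw [this, ← add_assoc, char2, zero_add]
      · have h2 : k = j0 := by
          by_contra hc
          exact hk ((hm k).2 hc)
        rw [zx_not J1 _ hk, add_zero, h2]
    have h2 := h (y j0) (fun u => y j0 + y u) (fun z => ?_) ?_
    · have h6 : y l = y j0 + zx J1 (fun u => y j0 + y u) l := hy l
      rw [h2.2, h2.1] at h6
      rw [h6]
      by_cases hl : l ∈ J1
      · have := zx_of J1 (0 : J1 → F) ⟨l, hl⟩
        simp only [Pi.zero_apply] at this
        rw [this, add_zero]
      · rw [zx_not J1 _ hl, add_zero]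
    · have h3 := (bf_zero_iff J1 (fun k l => mL J1 α k l + mG J1 g k l) (fun u => y j0 + y u)
        (fun l => y j0 * g l)).2 (fun k => by
          have h4 := key (y j0) (fun u => y j0 + y u) k k.2
          have h5 := h1 k (mem_univ _)
          simp only [← hy] at h4
          rw [← h4]
          exact h5) z
      have h5 : y j0 * lf J1 g z = ∑ l : J1, y j0 * g l * z l := by
        show y j0 * ∑ l : J1, g l * z l = _
        rw [mul_sum]
        exact sum_congr rfl fun l _ => by ring
      rw [h5]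
      exact h3
    · have h6 : ∑ k, g k * (y j0 + zx J1 (fun u => y j0 + y u) k) = ∑ k, g k * y k :=
        sum_congr rfl fun k _ => by rw [← hy k]
      rw [← hsum, h6, ← tot y]
      exact sum_eq_zero fun k hk => h1 k hk

/-- **no index outside** -/
theorem fr_full (h : Pool.Agent.Y703.CQ.S_SYM) {J1 : Finset J} {j0 : J}
    (hm : ∀ k, k ∈ J1 ↔ k ≠ j0) (g : J → F) :
    fr (fun α : prs J1 → F => Sys univ (ef j0 α) g) =
      if (∀ k, g k = 0) then 0 else if ∑ k, g k = 1 then sp (Fintype.card J - 1)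
        else sp (Fintype.card J - 2) := by
  have hu : J1 = univ.erase j0 := by
    ext k
    rw [hm, mem_erase]
    exact ⟨fun h => ⟨h, mem_univ _⟩, fun h => h.1⟩
  have h0 : ∃ l, l ∉ J1 := ⟨j0, fun h => (hm j0).1 h rfl⟩
  have hc : J1.card = Fintype.card J - 1 := by
    rw [hu, card_erase_of_mem (mem_univ _), card_univ]
  have e1 : fr (fun α : prs J1 → F => Sys univ (ef j0 α) g) =
      fr (fun S : Sy (J1 → F) => Bo S.1 (lf J1 g) (∑ k, g k)) := by
    rw [← fr_shift (gS J1 g) (fun S : Sy (J1 → F) => Bo S.1 (lf J1 g) (∑ k, g k)),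
      ← fr_comp (pa J1) (pa_surj _ h0) (fun S : Sy (J1 → F) =>
      Bo (S + gS J1 g).1 (lf J1 g) (∑ k, g k))]
    congr 1
    funext α
    rw [sys_full hm, fo_eq]
  rw [e1]
  have hlf : lf J1 g = 0 ↔ ∀ k, k ≠ j0 → g k = 0 := by
    constructor
    · intro h1 k hk
      have hk' : k ∈ J1 := (hm k).2 hk
      have h2 := LinearMap.congr_fun h1 (Pi.single ⟨k, hk'⟩ 1)
      have h3 : lf J1 g (Pi.single ⟨k, hk'⟩ 1) = g k := by
        show ∑ l : J1, g l * (Pi.single ⟨k, hk'⟩ (1 : F) : _ → F) l = g k
        rw [sum_eq_single ⟨k, hk'⟩]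
        · rw [Pi.single_eq_same, mul_one]
        · intro b _ hb
          rw [Pi.single_eq_of_ne hb, mul_zero]
        · intro h4
          exact absurd (mem_univ _) h4
      rw [h3] at h2
      exact h2
    · intro h1
      refine LinearMap.ext fun y => ?_
      show ∑ l : J1, g l * y l = 0
      exact sum_eq_zero fun l _ => by rw [h1 l ((hm l).1 l.2), zero_mul]
  by_cases hg : ∀ k, g k = 0
  · rw [if_pos hg, hlf.2 fun k _ => hg k, sum_eq_zero fun k _ => hg k]
    exact bo_none
  · rw [if_neg hg]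
    by_cases hs : ∑ k, g k = 1
    · rw [if_pos hs, hs, bo_one h, rk_fun, hc]
    · rw [if_neg hs]
      have hs0 : ∑ k, g k = 0 := (f2 _).resolve_right hs
      rw [hs0, bo_zero h _ ?_, rk_fun, hc]
      · congr 1
      · intro h1
        apply hg
        have h2 := hlf.1 h1
        intro k
        by_cases hk : k = j0
        · rw [← add_sum_erase univ _ (mem_univ j0), sum_eq_zero (s := univ.erase j0) (fun k hk =>
            h2 k (mem_erase.1 hk).1), add_zero] at hs0
          rw [hk]
          exact hs0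
        · exact h2 k hk

end sys

end Pool.Agent.U120.DL
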