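import Pool.Agent.U120.DL.Eq

/-!
# From the tuples to the subsets
-/

set_option autoImplicit false

open scoped Classical

namespace Pool.Agent.U120.DL

open Finset
open Pool.Agent.Y703.CQ (nr)
open Pool.Agent.Y219.CQ (F sp)
open Pool.Agent.R413.SQ (Gd)
open Pool.Agent.Y698.SG (n4)

/-- the type of a prime: inert; split and `-7` is a fourth power; split and `-7` is no fourth power -/
noncomputable def lab (p : ℕ) : Fin 3 :=
  if Pool.Agent.R413.SQ.mk p = 1 then (if n4 p = 1 then 2 else 1) else 0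

/-- the chance for `a` inert, `b` split with a fourth power, `c` split without -/
noncomputable def chance (a b c : ℕ) : ℝ :=
  if b + c = 0 then 1 else if a ≠ 0 then sp (b + c) else if c = 0 then 0 else
    if Odd c then sp (b + c - 1) else sp (b + c - 2)

/-- the number of the elements of a type -/
noncomputable def cl (j : Fin 3) (U : Finset ℕ) : ℕ := (U.filter fun p => lab p = j).card

/-- the chance of a set -/
noncomputable def chU (U : Finset ℕ) : ℝ := chance (cl 0 U) (cl 1 U) (cl 2 U)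

lemma sp_zero : sp 0 = 1 := by
  unfold Pool.Agent.Y219.CQ.sp
  simp

lemma sp_bd (m : ℕ) : 0 ≤ sp m ∧ sp m ≤ 1 := by
  unfold Pool.Agent.Y219.CQ.sp
  have h : ∀ i : ℕ, 0 ≤ (1 - (1 / 2 : ℝ) ^ (2 * i + 1)) ∧ (1 - (1 / 2 : ℝ) ^ (2 * i + 1)) ≤ 1 := by
    intro i
    have h1 : (0 : ℝ) ≤ (1 / 2 : ℝ) ^ (2 * i + 1) := by positivity
    have h2 : (1 / 2 : ℝ) ^ (2 * i + 1) ≤ 1 := pow_le_one₀ (by norm_num) (by norm_num)
    exact ⟨by linarith, by linarith⟩
  exact ⟨Finset.prod_nonneg fun i _ => (h i).1,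
    Finset.prod_le_one (fun i _ => (h i).1) fun i _ => (h i).2⟩

lemma chance_bd (a b c : ℕ) : 0 ≤ chance a b c ∧ chance a b c ≤ 1 := by
  unfold chance
  split_ifs
  · norm_num
  · exact sp_bd _
  · norm_num
  · exact sp_bd _
  · exact sp_bd _

section type
variable {ι : Type} [Fintype ι]

/-- the split indices -/
noncomputable def jt (t : ι → Fin 3) : Finset ι := univ.filter fun i => t i ≠ 0

/-- the diagonal -/
noncomputable def gt (t : ι → Fin 3) (i : ι) : F := if t i = 2 then 1 else 0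

/-- the number of the indices of a type -/
noncomputable def ct (j : Fin 3) (t : ι → Fin 3) : ℕ := (univ.filter fun i => t i = j).card

lemma gt_zero (t : ι → Fin 3) : (∀ i, gt t i = 0) ↔ ct 2 t = 0 := by
  unfold gt ct
  rw [Finset.card_eq_zero, Finset.filter_eq_empty_iff]
  constructor
  · intro h i _ hi
    have := h i
    rw [if_pos hi] at this
    exact one_ne_zero this
  · intro h i
    exact if_neg (h (Finset.mem_univ i))

lemma gt_sum (t : ι → Fin 3) : ∑ i, gt t i = 1 ↔ Odd (ct 2 t) := by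
  unfold gt ct
  rw [Finset.sum_boole]
  exact ZMod.natCast_eq_one_iff_odd

lemma jt_univ (t : ι → Fin 3) : jt t = univ ↔ ct 0 t = 0 := by
  unfold jt ct
  rw [Finset.card_eq_zero, Finset.filter_eq_empty_iff, Finset.eq_univ_iff_forall]
  constructor
  · intro h i _
    exact (Finset.mem_filter.1 (h i)).2
  · intro h i
    exact Finset.mem_filter.2 ⟨Finset.mem_univ i, h (Finset.mem_univ i)⟩

lemma jt_card (t : ι → Fin 3) : (jt t).card = ct 1 t + ct 2 t := by
  unfold jt ct
  rw [← Finset.card_union_of_disjoint]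
  · congr 1
    ext i
    simp only [Finset.mem_filter, Finset.mem_univ, true_and, Finset.mem_union]
    generalize t i = x
    revert x
    decide
  · rw [Finset.disjoint_left]
    intro i hi hi'
    have h1 := (Finset.mem_filter.1 hi).2
    have h2 := (Finset.mem_filter.1 hi').2
    rw [h1] at h2
    exact absurd h2 (by decide)

theorem chT_eq [LinearOrder ι] [Nonempty ι] (t : ι → Fin 3) :
    chT (jt t) (gt t) = chance (ct 0 t) (ct 1 t) (ct 2 t) := by
  unfold chT chance
  by_cases h : jt t = univ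
  · have h0 := (jt_univ t).1 h
    have hc : ct 1 t + ct 2 t = Fintype.card ι := by rw [← jt_card, h, Finset.card_univ]
    have hpos : 0 < Fintype.card ι := Fintype.card_pos
    have hR : (if ct 1 t + ct 2 t = 0 then (1 : ℝ) else if ct 0 t ≠ 0 then sp (ct 1 t + ct 2 t) else
        if ct 2 t = 0 then 0 else if Odd (ct 2 t) then sp (ct 1 t + ct 2 t - 1) else
          sp (ct 1 t + ct 2 t - 2)) =
        if ct 2 t = 0 then 0 else if Odd (ct 2 t) then sp (Fintype.card ι - 1) else
          sp (Fintype.card ι - 2) := by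
      rw [hc, if_neg (by omega), if_neg (fun h' => h' h0)]
    rw [if_pos h, hR]
    by_cases h2 : ct 2 t = 0
    · rw [if_pos ((gt_zero t).2 h2), if_pos h2]
    · rw [if_neg fun h' => h2 ((gt_zero t).1 h'), if_neg h2]
      by_cases h3 : Odd (ct 2 t)
      · rw [if_pos ((gt_sum t).2 h3), if_pos h3]
      · rw [if_neg fun h' => h3 ((gt_sum t).1 h'), if_neg h3]
  · have h0 : ct 0 t ≠ 0 := fun h' => h ((jt_univ t).2 h')
    rw [if_neg h, jt_card, if_pos h0]
    by_cases h1 : ct 1 t + ct 2 t = 0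
    · rw [if_pos h1, h1, sp_zero]
    · rw [if_neg h1]

end type

section sums
variable {ι : Type} [Fintype ι] [LinearOrder ι]

/-- the deviation of a tuple -/
noncomputable def dev (p : ι → ℕ) : ℝ :=
  (if Sys (jt fun i => lab (p i)) (fun k l => nr (p k) (p l)) (gt fun i => lab (p i)) then 1 else 0) -
    chT (jt fun i => lab (p i)) (gt fun i => lab (p i))

lemma chT_bd [Nonempty ι] (t : ι → Fin 3) : 0 ≤ chT (jt t) (gt t) ∧ chT (jt t) (gt t) ≤ 1 := by
  rw [chT_eq]
  exact chance_bd _ _ _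

lemma dev_bd [Nonempty ι] (p : ι → ℕ) : |dev p| ≤ 1 := by
  unfold dev
  obtain ⟨h1, h2⟩ := chT_bd fun i => lab (p i)
  rw [abs_le]
  split_ifs
  · exact ⟨by linarith, by linarith⟩
  · exact ⟨by linarith, by linarith⟩

lemma lab_mk {p : ℕ} : lab p ≠ 0 ↔ Pool.Agent.R413.SQ.mk p = 1 := by
  unfold lab
  constructor
  · intro h
    by_contra h1
    rw [if_neg h1] at h
    exact h rfl
  · intro h
    rw [if_pos h]
    split_ifs <;> decide

/-- **all the tuples** -/
theorem dev_sum [Nonempty ι] {X s : ℕ} (hX : 1 ≤ X) (hs : 1 ≤ s) (C : ι → Finset ℕ)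
    (hS : ∀ i, ∀ p ∈ C i, P4 p ∧ p ≤ X) (hCs : ∀ i, (C i).card ≤ s) :
    |∑ p ∈ Fintype.piFinset C, dev p| ≤
      3 ^ Fintype.card ι * (2 ^ (Fintype.card ι ^ 2) * (kap X s * (s : ℝ) ^ Fintype.card ι)) := by
  have h1 : ∑ p ∈ Fintype.piFinset C, dev p =
      ∑ t : ι → Fin 3, ∑ p ∈ Fintype.piFinset fun i => (C i).filter fun q => lab q = t i, dev p := by
    rw [← Finset.sum_fiberwise_of_maps_to (g := fun (p : ι → ℕ) i => lab (p i))
      (t := (univ : Finset (ι → Fin 3))) (fun _ _ => Finset.mem_univ _)]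
    refine Finset.sum_congr rfl fun t _ => Finset.sum_congr ?_ fun _ _ => rfl
    ext p
    simp only [Finset.mem_filter, Fintype.mem_piFinset]
    constructor
    · rintro ⟨h2, h3⟩ i
      exact ⟨h2 i, congrFun h3 i⟩
    · intro h2
      exact ⟨fun i => (h2 i).1, funext fun i => (h2 i).2⟩
  rw [h1]
  refine (Finset.abs_sum_le_sum_abs _ _).trans ?_
  have h2 : ∀ t : ι → Fin 3,
      |∑ p ∈ Fintype.piFinset fun i => (C i).filter fun q => lab q = t i, dev p| ≤
        2 ^ (Fintype.card ι ^ 2) * (kap X s * (s : ℝ) ^ Fintype.card ι) := by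
    intro t
    have h3 := tuple hX hs (jt t) (fun i => (C i).filter fun q => lab q = t i)
      (fun i p hp => hS i p (Finset.mem_filter.1 hp).1)
      (fun i => (Finset.card_filter_le _ _).trans (hCs i))
      (fun i p hp => by
        rw [← lab_mk, (Finset.mem_filter.1 hp).2]
        unfold jt
        rw [Finset.mem_filter]
        exact ⟨fun h => ⟨Finset.mem_univ _, h⟩, fun h => h.2⟩) (gt t)
    refine (le_of_eq ?_).trans h3
    congr 1
    have e1 : ∀ p ∈ Fintype.piFinset fun i => (C i).filter fun q => lab q = t i,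
        dev p = (if Sys (jt t) (fun k l => nr (p k) (p l)) (gt t) then 1 else 0) -
          chT (jt t) (gt t) := by
      intro p hp
      rw [Fintype.mem_piFinset] at hp
      have e2 : (fun i => lab (p i)) = t := funext fun i => (Finset.mem_filter.1 (hp i)).2
      unfold dev
      rw [e2]
    rw [Finset.sum_congr rfl e1, Finset.sum_sub_distrib, Finset.sum_boole, Finset.sum_const,
      nsmul_eq_mul, Fintype.card_piFinset]
    push_cast
    ring
  refine (Finset.sum_le_sum fun t _ => h2 t).trans ?_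
  rw [Finset.sum_const, Finset.card_univ, nsmul_eq_mul, Fintype.card_fun, Fintype.card_fin]
  push_cast
  exact le_rfl

end sums

/-- **the injective tuples and the subsets** -/
theorem sum_inj (S : Finset ℕ) (k : ℕ) (G : Finset ℕ → ℝ) :
    ∑ p ∈ (Fintype.piFinset fun _ : Fin k => S).filter Function.Injective, G (univ.image p) =
      k.factorial * ∑ U ∈ S.powersetCard k, G U := by
  have hmap : ∀ p ∈ (Fintype.piFinset fun _ : Fin k => S).filter Function.Injective,
      univ.image p ∈ S.powersetCard k := by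
    intro p hp
    rw [Finset.mem_filter, Fintype.mem_piFinset] at hp
    rw [Finset.mem_powersetCard]
    refine ⟨fun x hx => ?_, ?_⟩
    · obtain ⟨i, -, rfl⟩ := Finset.mem_image.1 hx
      exact hp.1 i
    · rw [Finset.card_image_of_injective _ hp.2, Finset.card_univ, Fintype.card_fin]
  rw [← Finset.sum_fiberwise_of_maps_to hmap, Finset.mul_sum]
  refine Finset.sum_congr rfl fun U hU => ?_
  rw [Finset.mem_powersetCard] at hU
  have h1 : ∑ p ∈ ((Fintype.piFinset fun _ : Fin k => S).filter Function.Injective).filter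
      (fun p => univ.image p = U), G (univ.image p) =
      ∑ _p ∈ ((Fintype.piFinset fun _ : Fin k => S).filter Function.Injective).filter
      (fun p => univ.image p = U), G U :=
    Finset.sum_congr rfl fun p hp => by rw [(Finset.mem_filter.1 hp).2]
  rw [h1, Finset.sum_const, nsmul_eq_mul]
  congr 1
  have hc : Fintype.card (Fin k) = Fintype.card U := by
    rw [Fintype.card_fin, Fintype.card_coe, hU.2]
  obtain ⟨e0⟩ := Fintype.card_eq.1 hc
  have h2 : Fintype.card (Fin k ≃ U) = k.factorial := by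
    rw [Fintype.card_equiv e0, Fintype.card_fin]
  rw [← h2, ← Finset.card_univ]
  congr 1
  symm
  refine Finset.card_bij (fun e _ i => ((e i : U) : ℕ)) ?_ ?_ ?_
  · intro e _
    rw [Finset.mem_filter, Finset.mem_filter, Fintype.mem_piFinset]
    refine ⟨⟨fun i => hU.1 (e i).2, fun i j hij => e.injective (Subtype.ext hij)⟩, ?_⟩
    ext x
    rw [Finset.mem_image]
    constructor
    · rintro ⟨i, -, rfl⟩
      exact (e i).2
    · intro hx
      exact ⟨e.symm ⟨x, hx⟩, Finset.mem_univ _, by rw [Equiv.apply_symm_apply]⟩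
  · intro e _ e' _ h
    refine Equiv.ext fun i => Subtype.ext ?_
    exact congrFun h i
  · intro p hp
    rw [Finset.mem_filter, Finset.mem_filter] at hp
    have hpU : ∀ i, p i ∈ U := fun i => by
      rw [← hp.2]
      exact Finset.mem_image_of_mem _ (Finset.mem_univ _)
    refine ⟨Equiv.ofBijective (fun i => ⟨p i, hpU i⟩) ⟨fun i j hij => hp.1.2
      (congrArg Subtype.val hij), fun x => ?_⟩, Finset.mem_univ _, rfl⟩
    have hx : (x : ℕ) ∈ univ.image p := by
      rw [hp.2]
      exact x.2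
    obtain ⟨i, -, hi⟩ := Finset.mem_image.1 hx
    exact ⟨i, Subtype.ext hi⟩

/-- the number of the tuples which are not injective -/
theorem noninj {ι : Type} [Fintype ι] [DecidableEq ι] (C : ι → Finset ℕ) {s : ℕ}
    (hCs : ∀ i, (C i).card ≤ s) :
    (((Fintype.piFinset C).filter fun p => ¬ Function.Injective p).card : ℝ) ≤
      (Fintype.card ι : ℝ) ^ 2 * (s : ℝ) ^ (Fintype.card ι - 1) := by
  have h1 : ((Fintype.piFinset C).filter fun p => ¬ Function.Injective p) ⊆
      (univ : Finset ι).offDiag.biUnion fun e => (Fintype.piFinset C).filter fun p =>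
        p e.1 = p e.2 := by
    intro p hp
    rw [Finset.mem_filter] at hp
    obtain ⟨h2, h3⟩ := hp
    simp only [Function.Injective] at h3
    push Not at h3
    obtain ⟨i, j, h4, h5⟩ := h3
    rw [Finset.mem_biUnion]
    exact ⟨(i, j), Finset.mem_offDiag.2 ⟨Finset.mem_univ _, Finset.mem_univ _, h5⟩,
      Finset.mem_filter.2 ⟨h2, h4⟩⟩
  have h2 : ∀ e ∈ (univ : Finset ι).offDiag, ((Fintype.piFinset C).filter fun p =>
      p e.1 = p e.2).card ≤ s ^ (Fintype.card ι - 1) := by
    rintro ⟨i, j⟩ he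
    have hij : i ≠ j := (Finset.mem_offDiag.1 he).2.2
    have h3 : ((Fintype.piFinset C).filter fun p => p i = p j).card ≤
        (Fintype.piFinset fun l : {l : ι // l ≠ j} => C l.1).card := by
      refine Finset.card_le_card_of_injOn (fun p (l : {l : ι // l ≠ j}) => p l.1) ?_ ?_
      · intro p hp
        rw [Finset.mem_coe, Finset.mem_filter, Fintype.mem_piFinset] at hp
        rw [Finset.mem_coe, Fintype.mem_piFinset]
        exact fun l => hp.1 l.1
      · intro p hp q hq hpq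
        rw [Finset.mem_coe, Finset.mem_filter] at hp hq
        funext l
        by_cases hl : l = j
        · rw [hl, ← hp.2, ← hq.2]
          exact congrFun hpq ⟨i, hij⟩
        · exact congrFun hpq ⟨l, hl⟩
    refine h3.trans ?_
    rw [Fintype.card_piFinset]
    refine (Finset.prod_le_prod' fun l _ => hCs l.1).trans (le_of_eq ?_)
    rw [Finset.prod_const, Finset.card_univ]
    congr 1
    rw [Fintype.card_subtype_compl, Fintype.card_subtype_eq]
  have h3 : ((Fintype.piFinset C).filter fun p => ¬ Function.Injective p).card ≤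
      Fintype.card ι ^ 2 * s ^ (Fintype.card ι - 1) := by
    refine (Finset.card_le_card h1).trans (Finset.card_biUnion_le.trans ?_)
    refine (Finset.sum_le_sum h2).trans ?_
    rw [Finset.sum_const, smul_eq_mul]
    refine Nat.mul_le_mul_right _ ?_
    rw [Finset.offDiag_card, Finset.card_univ, sq]
    exact Nat.sub_le _ _
  exact_mod_cast h3

/-- the error -/
noncomputable def er (k X s : ℕ) : ℝ :=
  5 * 3 ^ k * 2 ^ (k ^ 2) * √(X : ℝ) * (s : ℝ) ^ k / (s : ℝ) ^ ((3 : ℝ) / 4)

lemma sq_le_two (k : ℕ) : k ^ 2 ≤ 2 ^ (k ^ 2) := Nat.lt_two_pow_self.le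

lemma er_le {k X s : ℕ} (hk : 1 ≤ k) (hX : 1 ≤ X) (hs : 1 ≤ s) :
    3 ^ k * (2 ^ (k ^ 2) * (kap X s * (s : ℝ) ^ k)) + (k : ℝ) ^ 2 * (s : ℝ) ^ (k - 1) ≤
      er k X s := by
  have hXr : (1 : ℝ) ≤ X := by exact_mod_cast hX
  have hsr : (1 : ℝ) ≤ s := by exact_mod_cast hs
  have hY1 : 1 ≤ √(X : ℝ) := Real.one_le_sqrt.2 hXr
  have hZ0 : 0 < (s : ℝ) ^ ((3 : ℝ) / 4) := Real.rpow_pos_of_pos (by linarith) _
  have hZ1 : (s : ℝ) ^ ((3 : ℝ) / 4) ≤ s := by
    have := Real.rpow_le_rpow_of_exponent_le hsr (show (3 : ℝ) / 4 ≤ 1 by norm_num)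
    rwa [Real.rpow_one] at this
  have h1 : (k : ℝ) ^ 2 ≤ 3 ^ k * 2 ^ (k ^ 2) := by
    have h2 : (k : ℝ) ^ 2 ≤ 2 ^ (k ^ 2) := by exact_mod_cast sq_le_two k
    have h3 : (1 : ℝ) ≤ 3 ^ k := one_le_pow₀ (by norm_num)
    calc (k : ℝ) ^ 2 ≤ 2 ^ (k ^ 2) := h2
      _ ≤ 3 ^ k * 2 ^ (k ^ 2) := le_mul_of_one_le_left (by positivity) h3
  have h2 : (s : ℝ) ^ k = s * (s : ℝ) ^ (k - 1) := by
    rw [← pow_succ', Nat.sub_add_cancel hk]
  have h3 : (s : ℝ) ^ (k - 1) ≤ √(X : ℝ) * (s : ℝ) ^ k / (s : ℝ) ^ ((3 : ℝ) / 4) := by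
    rw [le_div_iff₀ hZ0, h2]
    calc (s : ℝ) ^ (k - 1) * (s : ℝ) ^ ((3 : ℝ) / 4) ≤ (s : ℝ) ^ (k - 1) * s :=
          mul_le_mul_of_nonneg_left hZ1 (by positivity)
      _ = 1 * (s * (s : ℝ) ^ (k - 1)) := by ring
      _ ≤ √(X : ℝ) * (s * (s : ℝ) ^ (k - 1)) :=
          mul_le_mul_of_nonneg_right hY1 (by positivity)
  have h4 : (k : ℝ) ^ 2 * (s : ℝ) ^ (k - 1) ≤
      (3 ^ k * 2 ^ (k ^ 2)) * (√(X : ℝ) * (s : ℝ) ^ k / (s : ℝ) ^ ((3 : ℝ) / 4)) :=
    mul_le_mul h1 h3 (by positivity) (by positivity)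
  have h5 : 3 ^ k * (2 ^ (k ^ 2) * (kap X s * (s : ℝ) ^ k)) = 4 * ((3 ^ k * 2 ^ (k ^ 2)) *
      (√(X : ℝ) * (s : ℝ) ^ k / (s : ℝ) ^ ((3 : ℝ) / 4))) := by
    unfold kap
    ring
  have h6 : er k X s = 5 * ((3 ^ k * 2 ^ (k ^ 2)) *
      (√(X : ℝ) * (s : ℝ) ^ k / (s : ℝ) ^ ((3 : ℝ) / 4))) := by
    unfold er
    ring
  rw [h5, h6]
  linarith

/-- the passage from all the tuples to the injective ones -/
theorem to_inj {k X s : ℕ} (hk : 1 ≤ k) (hX : 1 ≤ X) (hs : 1 ≤ s) (C : Fin k → Finset ℕ)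
    (hCs : ∀ i, (C i).card ≤ s) (f : (Fin k → ℕ) → ℝ) (hf : ∀ p, |f p| ≤ 1)
    (h : |∑ p ∈ Fintype.piFinset C, f p| ≤
      3 ^ k * (2 ^ (k ^ 2) * (kap X s * (s : ℝ) ^ k))) :
    |∑ p ∈ (Fintype.piFinset C).filter Function.Injective, f p| ≤ er k X s := by
  have h3 : ∑ p ∈ (Fintype.piFinset C).filter Function.Injective, f p =
      ∑ p ∈ Fintype.piFinset C, f p -
        ∑ p ∈ (Fintype.piFinset C).filter (fun p => ¬ Function.Injective p), f p := by
    rw [← Finset.sum_filter_add_sum_filter_not (Fintype.piFinset C)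
      Function.Injective, add_sub_cancel_right]
  have h5 : |∑ p ∈ (Fintype.piFinset C).filter (fun p => ¬ Function.Injective p), f p| ≤
      (k : ℝ) ^ 2 * (s : ℝ) ^ (k - 1) := by
    refine (Finset.abs_sum_le_sum_abs _ _).trans ?_
    refine (Finset.sum_le_sum fun p _ => hf p).trans ?_
    rw [Finset.sum_const, nsmul_eq_mul, mul_one]
    have h6 := noninj C hCs
    rwa [Fintype.card_fin] at h6
  rw [h3]
  exact ((abs_sub _ _).trans (add_le_add h h5)).trans (er_le hk hX hs)

/-- the deviation of a set -/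
noncomputable def dU (U : Finset ℕ) : ℝ := (if Gd n4 U then 1 else 0) - chU U

lemma dU_dev {k : ℕ} {p : Fin k → ℕ} (hk : 1 ≤ k) (hi : Function.Injective p) :
    dU (univ.image p) = dev p := by
  have : Nonempty (Fin k) := ⟨⟨0, hk⟩⟩
  have e1 : ∀ j, cl j (univ.image p) = ct j fun i => lab (p i) := by
    intro j
    unfold cl ct
    rw [Finset.filter_image, Finset.card_image_of_injective _ hi]
  have e2 : Gd n4 (univ.image p) ↔ Sys (jt fun i => lab (p i)) (fun k l => nr (p k) (p l))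
      (gt fun i => lab (p i)) := by
    rw [gd_sys n4 (J1 := jt fun i => lab (p i)) hi (fun i => by
      rw [← lab_mk]
      unfold jt
      rw [Finset.mem_filter]
      exact ⟨fun h => ⟨Finset.mem_univ _, h⟩, fun h => h.2⟩)]
    refine sys_congr (fun _ _ _ _ => rfl) fun i hi => ?_
    have h3 : lab (p i) ≠ 0 := (Finset.mem_filter.1 hi).2
    have h4 := lab_mk.1 h3
    show n4 (p i) = if (if Pool.Agent.R413.SQ.mk (p i) = 1 then
      (if n4 (p i) = 1 then (2 : Fin 3) else 1) else 0) = 2 then 1 else 0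
    rw [if_pos h4]
    rcases f2 (n4 (p i)) with h5 | h5
    · rw [h5, if_neg (by decide)]
    · rw [h5, if_pos rfl, if_pos rfl]
  unfold dU dev chU
  rw [chT_eq, e1, e1, e1]
  congr 1
  by_cases h : Gd n4 (univ.image p)
  · rw [if_pos h, if_pos (e2.1 h)]
  · rw [if_neg h, if_neg fun h' => h (e2.2 h')]

/-- **the law for the boxes, with an explicit error** -/
theorem box {k X s : ℕ} (hk : 1 ≤ k) (hX : 1 ≤ X) (hs : 1 ≤ s) (C : Fin k → Finset ℕ)
    (hC : ∀ i, ∀ p ∈ C i, P4 p ∧ p ≤ X) (hCs : ∀ i, (C i).card ≤ s) :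
    |∑ p ∈ (Fintype.piFinset C).filter Function.Injective, dU (univ.image p)| ≤ er k X s := by
  have : Nonempty (Fin k) := ⟨⟨0, hk⟩⟩
  have h2 : ∑ p ∈ (Fintype.piFinset C).filter Function.Injective, dU (univ.image p) =
      ∑ p ∈ (Fintype.piFinset C).filter Function.Injective, dev p :=
    Finset.sum_congr rfl fun p hp => dU_dev hk (Finset.mem_filter.1 hp).2
  rw [h2]
  have h4 := dev_sum hX hs C hC hCs
  rw [Fintype.card_fin] at h4
  exact to_inj hk hX hs C hCs dev dev_bd h4

/-- **the law for the subsets, with an explicit error** -/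
theorem law {X : ℕ} (hX : 1 ≤ X) {S : Finset ℕ} (hS : ∀ p ∈ S, P4 p ∧ p ≤ X) {k : ℕ} (hk : 1 ≤ k)
    (hn : S.Nonempty) :
    |∑ U ∈ S.powersetCard k, dU U| ≤ er k X S.card / k.factorial := by
  have h1 := sum_inj S k dU
  have h2 := box hk hX (Finset.card_pos.2 hn) (fun _ => S) (fun _ => hS) fun _ => le_rfl
  have hk0 : (0 : ℝ) < k.factorial := by exact_mod_cast Nat.factorial_pos k
  rw [h1, abs_mul, abs_of_pos hk0] at h2
  rw [le_div_iff₀ hk0, mul_comm]
  exact h2

end Pool.Agent.U120.DL
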