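import Pool.Agent.U120.DL.Her
import Pool.Agent.Y948.CQ.C2A

/-!
# The normalised law, lower bounds and the limit
-/

set_option autoImplicit false

open scoped Classical

namespace Pool.Agent.U120.DL

open Finset Filter
open Pool.Agent.Y219.CQ (F sp)
open Pool.Agent.R413.SQ (Gd)
open Pool.Agent.Y698.SG (n4)

/-- the constant `0.4194...` -/
noncomputable def cc : ℝ := ∏' i : ℕ, (1 - (1 / 2 : ℝ) ^ (2 * i + 1))

lemma cc_num : 0.4194 < cc ∧ cc < 0.4195 := (Pool.Agent.Y948.CQ.c2_main cc rfl).2.2.2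

lemma sp_cc (m : ℕ) : |sp m - cc| ≤ (1 / 4 : ℝ) ^ ((m + 1) / 2) := by
  unfold Pool.Agent.Y219.CQ.sp
  exact (Pool.Agent.Y948.CQ.c2_main cc rfl).1 _

lemma prod_anti : Antitone fun n => ∏ i ∈ Finset.range n, (1 - (1 / 2 : ℝ) ^ (2 * i + 1)) := by
  refine antitone_nat_of_succ_le fun n => ?_
  rw [Finset.prod_range_succ]
  refine mul_le_of_le_one_right (Finset.prod_nonneg fun i _ => ?_) ?_
  · have : (1 / 2 : ℝ) ^ (2 * i + 1) ≤ 1 := pow_le_one₀ (by norm_num) (by norm_num)
    linarith
  · have : (0 : ℝ) ≤ (1 / 2 : ℝ) ^ (2 * n + 1) := by positivity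
    linarith

lemma cc_le_prod (n : ℕ) : cc ≤ ∏ i ∈ Finset.range n, (1 - (1 / 2 : ℝ) ^ (2 * i + 1)) := by
  by_contra h
  push Not at h
  obtain ⟨m, hm⟩ := exists_pow_lt_of_lt_one (sub_pos.2 h) (show (1 / 4 : ℝ) < 1 by norm_num)
  have h1 := (Pool.Agent.Y948.CQ.c2_main cc rfl).1 (max m n)
  have h2 : (1 / 4 : ℝ) ^ (max m n) ≤ (1 / 4 : ℝ) ^ m :=
    pow_le_pow_of_le_one (by norm_num) (by norm_num) (le_max_left _ _)
  have h3 := prod_anti (le_max_right m n)
  have h4 := (abs_le.1 h1).1
  simp only at h3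
  linarith

lemma cc_le (m : ℕ) : cc ≤ sp m := by
  unfold Pool.Agent.Y219.CQ.sp
  exact cc_le_prod _

lemma cc_le_one : cc ≤ 1 := by linarith [cc_num.2]

lemma cc_nonneg : 0 ≤ cc := by linarith [cc_num.1]

/-- the relative error -/
noncomputable def rt (k X s : ℕ) : ℝ :=
  10 * 3 ^ k * 2 ^ (k ^ 2) * √(X : ℝ) / (s : ℝ) ^ ((3 : ℝ) / 4)

/-- the number of the subsets -/
lemma desc_ge {k s : ℕ} (hk : 1 ≤ k) (h : 2 * k ^ 2 ≤ s) :
    (s : ℝ) ^ k ≤ 2 * (k.factorial * (s.choose k : ℝ)) := by
  have hks : k ≤ s := by nlinarith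
  have hs0 : (0 : ℝ) < s := by exact_mod_cast (by omega : 0 < s)
  have h1 : (s + 1 - k) ^ k ≤ k.factorial * s.choose k := by
    rw [← Nat.descFactorial_eq_factorial_mul_choose]
    exact Nat.pow_sub_le_descFactorial s k
  have h2 : ((s + 1 - k : ℕ) : ℝ) = s + 1 - k := by
    rw [Nat.cast_sub (by omega)]
    push_cast
    ring
  have h3 : (((s + 1 - k : ℕ) : ℝ)) ^ k ≤ k.factorial * (s.choose k : ℝ) := by exact_mod_cast h1
  have hkr : (1 : ℝ) ≤ k := by exact_mod_cast hk
  have h4 : (1 : ℝ) - k * (k / s) ≤ (1 - k / s) ^ k := by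
    have h5 := one_add_mul_le_pow (a := -((k : ℝ) / s)) (by
      have : (k : ℝ) / s ≤ 1 := by
        rw [div_le_one hs0]
        exact_mod_cast hks
      linarith) k
    calc (1 : ℝ) - k * (k / s) = 1 + k * -((k : ℝ) / s) := by ring
      _ ≤ (1 + -((k : ℝ) / s)) ^ k := h5
      _ = _ := by ring
  have h5 : (k : ℝ) * (k / s) ≤ 1 / 2 := by
    rw [← mul_div_assoc, div_le_div_iff₀ hs0 (by norm_num)]
    have : (2 * (k : ℝ) ^ 2) ≤ s := by exact_mod_cast h
    nlinarith
  have h6 : (s : ℝ) ^ k * (1 - k / s) ^ k ≤ (((s + 1 - k : ℕ) : ℝ)) ^ k := by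
    rw [← mul_pow, h2]
    refine pow_le_pow_left₀ ?_ ?_ k
    · have : (k : ℝ) / s ≤ 1 := by
        rw [div_le_one hs0]
        exact_mod_cast hks
      exact mul_nonneg hs0.le (by linarith)
    · have : (s : ℝ) * (1 - k / s) = s - k := by field_simp
      rw [this]
      linarith
  have h7 : (s : ℝ) ^ k * (1 / 2) ≤ (s : ℝ) ^ k * (1 - k / s) ^ k :=
    mul_le_mul_of_nonneg_left (by linarith) (by positivity)
  linarith

lemma rel {k X s : ℕ} (hk : 1 ≤ k) (hs : 2 * k ^ 2 ≤ s) {x : ℝ}
    (h : |x| ≤ er k X s / k.factorial) : |x / (s.choose k : ℝ)| ≤ rt k X s := by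
  have h0 := desc_ge hk hs
  have hk0 : (0 : ℝ) < k.factorial := by exact_mod_cast Nat.factorial_pos k
  have hks : k ≤ s := by nlinarith
  have hs0 : (0 : ℝ) < s := by exact_mod_cast (by omega : 0 < s)
  have hc0 : (0 : ℝ) < (s.choose k : ℝ) := by exact_mod_cast Nat.choose_pos hks
  rw [abs_div, abs_of_pos hc0, div_le_iff₀ hc0]
  refine h.trans ?_
  rw [div_le_iff₀ hk0]
  have h1 : er k X s = rt k X s / 2 * (s : ℝ) ^ k := by
    unfold er rt
    ring
  have h2 : 0 ≤ rt k X s / 2 := by
    unfold rt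
    positivity
  rw [h1]
  calc rt k X s / 2 * (s : ℝ) ^ k ≤ rt k X s / 2 * (2 * (k.factorial * (s.choose k : ℝ))) :=
        mul_le_mul_of_nonneg_left h0 h2
    _ = rt k X s * (s.choose k : ℝ) * k.factorial := by ring

/-- few subsets contain few elements with a frequent property -/
theorem few {k J : ℕ} {S : Finset ℕ} (Q : ℕ → Prop) [DecidablePred Q] {δ : ℝ} (hδ : 0 < δ) (hδ1 : δ ≤ 1 / 2)
    (hQ : δ * (S.card : ℝ) ≤ ((S.filter Q).card : ℝ)) (hk : 1 ≤ k) (hs : 2 * k ^ 2 ≤ S.card)
    (hJ : J ≤ k) :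
    (((S.powersetCard k).filter fun U => (U.filter Q).card < J).card : ℝ) ≤
      2 * J * (2 * k) ^ J * (1 - δ) ^ k * (S.card.choose k : ℝ) := by
  have hk0 : (0 : ℝ) < k.factorial := by exact_mod_cast Nat.factorial_pos k
  have hd0 : (0 : ℝ) < 1 - δ := by linarith
  have hd1 : 1 - δ ≤ 1 := by linarith
  set n : ℝ := (S.card : ℝ) with hn
  have hn0 : 0 ≤ n := Nat.cast_nonneg _
  have h1 := sum_inj S k fun U => if (U.filter Q).card < J then 1 else 0
  have h1' : ∑ U ∈ S.powersetCard k, (if (U.filter Q).card < J then (1 : ℝ) else 0) =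
      (((S.powersetCard k).filter fun U => (U.filter Q).card < J).card : ℝ) := Finset.sum_boole _ _
  rw [h1'] at h1
  have h2 : ∑ p ∈ (Fintype.piFinset fun _ : Fin k => S).filter Function.Injective,
      (if ((univ.image p).filter Q).card < J then (1 : ℝ) else 0) ≤
      ∑ p ∈ Fintype.piFinset fun _ : Fin k => S,
        (if (univ.filter fun i => Q (p i)).card < J then (1 : ℝ) else 0) := by
    have h3 : ∑ p ∈ (Fintype.piFinset fun _ : Fin k => S).filter Function.Injective,
        (if ((univ.image p).filter Q).card < J then (1 : ℝ) else 0) =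
        ∑ p ∈ (Fintype.piFinset fun _ : Fin k => S).filter Function.Injective,
          (if (univ.filter fun i => Q (p i)).card < J then (1 : ℝ) else 0) := by
      refine Finset.sum_congr rfl fun p hp => ?_
      rw [Finset.filter_image, Finset.card_image_of_injective _ (Finset.mem_filter.1 hp).2]
    rw [h3]
    refine Finset.sum_le_sum_of_subset_of_nonneg (Finset.filter_subset _ _) fun _ _ _ => ?_
    split_ifs <;> norm_num
  have h3 : ∑ p ∈ Fintype.piFinset fun _ : Fin k => S,
        (if (univ.filter fun i => Q (p i)).card < J then (1 : ℝ) else 0) ≤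
      (J * (k : ℝ) ^ J) * (n ^ k * (2 ^ J * (1 - δ) ^ k)) := by
    rw [← Finset.sum_fiberwise_of_maps_to (g := fun (p : Fin k → ℕ) => univ.filter fun i => Q (p i))
      (t := (univ : Finset (Finset (Fin k)))) (fun _ _ => Finset.mem_univ _)]
    have h4 : ∀ A : Finset (Fin k), ∑ p ∈ (Fintype.piFinset fun _ : Fin k => S).filter
        (fun p => (univ.filter fun i => Q (p i)) = A),
        (if (univ.filter fun i => Q (p i)).card < J then (1 : ℝ) else 0) ≤
        if A.card < J then n ^ k * (2 ^ J * (1 - δ) ^ k) else 0 := by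
      intro A
      have h5 : ∑ p ∈ (Fintype.piFinset fun _ : Fin k => S).filter
          (fun p => (univ.filter fun i => Q (p i)) = A),
          (if (univ.filter fun i => Q (p i)).card < J then (1 : ℝ) else 0) =
          ∑ p ∈ (Fintype.piFinset fun _ : Fin k => S).filter
          (fun p => (univ.filter fun i => Q (p i)) = A), (if A.card < J then (1 : ℝ) else 0) :=
        Finset.sum_congr rfl fun p hp => by rw [(Finset.mem_filter.1 hp).2]
      rw [h5]
      by_cases hA : A.card < J
      · rw [if_pos hA, if_pos hA, Finset.sum_const, nsmul_eq_mul, mul_one]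
        have h6 : ((Fintype.piFinset fun _ : Fin k => S).filter
            (fun p => (univ.filter fun i => Q (p i)) = A)) ⊆
            Fintype.piFinset fun i => if i ∈ A then S else S.filter fun q => ¬ Q q := by
          intro p hp
          rw [Finset.mem_filter, Fintype.mem_piFinset] at hp
          rw [Fintype.mem_piFinset]
          intro i
          by_cases hi : i ∈ A
          · rw [if_pos hi]
            exact hp.1 i
          · rw [if_neg hi, Finset.mem_filter]
            refine ⟨hp.1 i, fun hq => hi ?_⟩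
            rw [← hp.2, Finset.mem_filter]
            exact ⟨Finset.mem_univ _, hq⟩
        have h7 : ((Fintype.piFinset fun i => if i ∈ A then S else
            S.filter fun q => ¬ Q q).card : ℝ) ≤ n ^ k * (1 - δ) ^ (k - A.card) := by
          rw [Fintype.card_piFinset]
          push_cast
          have h8 : ∀ i ∈ (univ : Finset (Fin k)), (((if i ∈ A then S else
              S.filter fun q => ¬ Q q).card : ℕ) : ℝ) ≤ n * (if i ∈ A then 1 else (1 - δ)) := by
            intro i _
            by_cases hi : i ∈ A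
            · rw [if_pos hi, if_pos hi, mul_one]
            · rw [if_neg hi, if_neg hi]
              have h9 := Finset.card_filter_add_card_filter_not (s := S) (p := Q)
              have h10 : ((S.filter Q).card : ℝ) + ((S.filter fun q => ¬ Q q).card : ℝ) = n := by
                rw [hn, ← h9]
                push_cast
                rfl
              linarith
          refine (Finset.prod_le_prod (fun i _ => Nat.cast_nonneg _) h8).trans (le_of_eq ?_)
          rw [Finset.prod_mul_distrib, Finset.prod_const, Finset.card_univ, Fintype.card_fin,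
            Finset.prod_ite, Finset.prod_const_one, one_mul, Finset.prod_const]
          congr 2
          have h11 := Finset.card_compl A
          rw [Fintype.card_fin] at h11
          rw [← h11]
          congr 1
          ext i
          simp
        have h8 : (1 - δ) ^ (k - A.card) ≤ 2 ^ J * (1 - δ) ^ k := by
          have h9 : (1 - δ) ^ (k - A.card) ≤ (1 - δ) ^ (k - J) :=
            pow_le_pow_of_le_one hd0.le hd1 (by omega)
          have h10 : (1 - δ) ^ k = (1 - δ) ^ (k - J) * (1 - δ) ^ J := by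
            rw [← pow_add, Nat.sub_add_cancel hJ]
          have h11 : (1 : ℝ) ≤ 2 ^ J * (1 - δ) ^ J := by
            rw [← mul_pow]
            exact one_le_pow₀ (by linarith)
          have h12 : 0 ≤ (1 - δ) ^ (k - J) := pow_nonneg hd0.le _
          calc (1 - δ) ^ (k - A.card) ≤ (1 - δ) ^ (k - J) := h9
            _ ≤ (1 - δ) ^ (k - J) * (2 ^ J * (1 - δ) ^ J) := le_mul_of_one_le_right h12 h11
            _ = 2 ^ J * (1 - δ) ^ k := by rw [h10]; ring
        have h9 : (((Fintype.piFinset fun _ : Fin k => S).filter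
            (fun p => (univ.filter fun i => Q (p i)) = A)).card : ℝ) ≤
            ((Fintype.piFinset fun i => if i ∈ A then S else S.filter fun q => ¬ Q q).card : ℝ) := by
          exact_mod_cast Finset.card_le_card h6
        exact h9.trans (h7.trans (mul_le_mul_of_nonneg_left h8 (by positivity)))
      · rw [if_neg hA, if_neg hA, Finset.sum_const_zero]
    refine (Finset.sum_le_sum fun A _ => h4 A).trans ?_
    rw [← Finset.sum_filter, Finset.sum_const, nsmul_eq_mul]
    refine mul_le_mul_of_nonneg_right ?_ (by positivity)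
    have h5 : (univ.filter fun A : Finset (Fin k) => A.card < J).card ≤ J * k ^ J := by
      have h6 : (univ.filter fun A : Finset (Fin k) => A.card < J) ⊆
          (Finset.range J).biUnion fun j => (univ : Finset (Fin k)).powersetCard j := by
        intro A hA
        rw [Finset.mem_filter] at hA
        rw [Finset.mem_biUnion]
        exact ⟨A.card, Finset.mem_range.2 hA.2, Finset.mem_powersetCard.2
          ⟨Finset.subset_univ _, rfl⟩⟩
      refine (Finset.card_le_card h6).trans (Finset.card_biUnion_le.trans ?_)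
      have h7 : ∀ j ∈ Finset.range J, ((univ : Finset (Fin k)).powersetCard j).card ≤ k ^ J := by
        intro j hj
        rw [Finset.card_powersetCard, Finset.card_univ, Fintype.card_fin]
        exact (Nat.choose_le_pow k j).trans (Nat.pow_le_pow_right hk (Finset.mem_range.1 hj).le)
      refine (Finset.sum_le_sum h7).trans (le_of_eq ?_)
      rw [Finset.sum_const, Finset.card_range, smul_eq_mul]
    exact_mod_cast h5
  have h4 := desc_ge hk hs
  have h5 : (k.factorial : ℝ) * (((S.powersetCard k).filter fun U => (U.filter Q).card < J).card : ℝ) ≤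
      k.factorial * (2 * J * (2 * k) ^ J * (1 - δ) ^ k * (S.card.choose k : ℝ)) := by
    rw [← h1]
    refine (h2.trans h3).trans ?_
    calc (J * (k : ℝ) ^ J) * (n ^ k * (2 ^ J * (1 - δ) ^ k)) =
        (J * (2 * (k : ℝ)) ^ J * (1 - δ) ^ k) * n ^ k := by
          rw [mul_pow]
          ring
      _ ≤ (J * (2 * (k : ℝ)) ^ J * (1 - δ) ^ k) * (2 * (k.factorial * (S.card.choose k : ℝ))) :=
          mul_le_mul_of_nonneg_left h4 (by positivity)
      _ = _ := by ring
  exact le_of_mul_le_mul_left h5 hk0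

lemma fin3 (x : Fin 3) : x = 0 ∨ x = 1 ∨ x = 2 := by
  fin_cases x <;> simp

lemma ne_zero_card (U : Finset ℕ) : (U.filter fun p => lab p ≠ 0).card = cl 1 U + cl 2 U := by
  unfold cl
  rw [← Finset.card_union_of_disjoint]
  · congr 1
    ext p
    simp only [Finset.mem_filter, Finset.mem_union]
    constructor
    · rintro ⟨h1, h2⟩
      rcases fin3 (lab p) with h | h | h
      · exact absurd h h2
      · exact Or.inl ⟨h1, h⟩
      · exact Or.inr ⟨h1, h⟩
    · rintro (⟨h1, h2⟩ | ⟨h1, h2⟩)
      · exact ⟨h1, by rw [h2]; decide⟩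
      · exact ⟨h1, by rw [h2]; decide⟩
  · rw [Finset.disjoint_filter]
    intro p _ h1 h2
    rw [h1] at h2
    exact absurd h2 (by decide)

lemma ne_one_card (U : Finset ℕ) : (U.filter fun p => lab p ≠ 1).card = cl 0 U + cl 2 U := by
  unfold cl
  rw [← Finset.card_union_of_disjoint]
  · congr 1
    ext p
    simp only [Finset.mem_filter, Finset.mem_union]
    constructor
    · rintro ⟨h1, h2⟩
      rcases fin3 (lab p) with h | h | h
      · exact Or.inl ⟨h1, h⟩
      · exact absurd h h2
      · exact Or.inr ⟨h1, h⟩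
    · rintro (⟨h1, h2⟩ | ⟨h1, h2⟩)
      · exact ⟨h1, by rw [h2]; decide⟩
      · exact ⟨h1, by rw [h2]; decide⟩
  · rw [Finset.disjoint_filter]
    intro p _ h1 h2
    rw [h1] at h2
    exact absurd h2 (by decide)

lemma chance_close {a b c J : ℕ} (hJ : 1 ≤ J) (h1 : J ≤ b + c) (h2 : 1 ≤ a + c) :
    |chance a b c - cc| ≤ (1 / 4 : ℝ) ^ ((J - 1) / 2) := by
  have hp : ∀ m, (J - 1) / 2 ≤ m → (1 / 4 : ℝ) ^ m ≤ (1 / 4 : ℝ) ^ ((J - 1) / 2) := fun m hm =>
    pow_le_pow_of_le_one (by norm_num) (by norm_num) hm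
  unfold chance
  rw [if_neg (by omega)]
  by_cases ha : a ≠ 0
  · rw [if_pos ha]
    exact (sp_cc _).trans (hp _ (by omega))
  · rw [if_neg ha, if_neg (by omega)]
    by_cases hc : Odd c
    · rw [if_pos hc]
      exact (sp_cc _).trans (hp _ (by omega))
    · rw [if_neg hc]
      rw [Nat.not_odd_iff_even] at hc
      obtain ⟨r, hr⟩ := hc
      exact (sp_cc _).trans (hp _ (by omega))

lemma chance_ge {a c : ℕ} : cc ≤ chance a 0 c := by
  unfold chance
  by_cases h : 0 + c = 0
  · rw [if_pos h]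
    exact cc_le_one
  · rw [if_neg h]
    by_cases ha : a ≠ 0
    · rw [if_pos ha]
      exact cc_le _
    · rw [if_neg ha, if_neg (by omega)]
      by_cases hc : Odd c
      · rw [if_pos hc]
        exact cc_le _
      · rw [if_neg hc]
        exact cc_le _

lemma dif_one {x y : ℝ} (hx : 0 ≤ x) (hx1 : x ≤ 1) (hy : 0 ≤ y) (hy1 : y ≤ 1) : |x - y| ≤ 1 :=
  abs_le.2 ⟨by linarith, by linarith⟩

/-- **the limit of the mean chance** -/
theorem univ_lim {δ ε : ℝ} (hδ : 0 < δ) (hδ1 : δ ≤ 1 / 2) (hε : 0 < ε) : ∃ k₀ : ℕ, 1 ≤ k₀ ∧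
    ∀ k : ℕ, k₀ ≤ k → ∀ S : Finset ℕ, 2 * k ^ 2 ≤ S.card →
      δ * (S.card : ℝ) ≤ ((S.filter fun p => lab p ≠ 0).card : ℝ) →
      δ * (S.card : ℝ) ≤ ((S.filter fun p => lab p ≠ 1).card : ℝ) →
      |∑ U ∈ S.powersetCard k, (chU U - cc)| ≤ ε * (S.card.choose k : ℝ) := by
  obtain ⟨m, hm⟩ := exists_pow_lt_of_lt_one (half_pos hε) (show (1 / 4 : ℝ) < 1 by norm_num)
  set J : ℕ := 2 * m + 1 with hJ
  have hd0 : (0 : ℝ) < 1 - δ := by linarith
  have hd1 : 1 - δ < 1 := by linarith
  have hlim : Tendsto (fun k : ℕ => (4 * J * 2 ^ J : ℝ) * ((k : ℝ) ^ J * (1 - δ) ^ k)) atTop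
      (nhds 0) := by
    have h1 := tendsto_pow_const_mul_const_pow_of_abs_lt_one J
      (show |1 - δ| < 1 by rw [abs_of_pos hd0]; exact hd1)
    simpa using h1.const_mul (4 * J * 2 ^ J : ℝ)
  have hev := hlim.eventually (gt_mem_nhds (half_pos hε))
  obtain ⟨k₁, hk₁⟩ := eventually_atTop.1 hev
  refine ⟨max k₁ (max J 1), le_trans (le_max_right _ _) (le_max_right _ _), ?_⟩
  intro k hk S hs h0 h1
  have hkJ : J ≤ k := le_trans (le_trans (le_max_left _ _) (le_max_right _ _)) hk
  have hk1 : 1 ≤ k := le_trans (le_trans (le_max_right _ _) (le_max_right _ _)) hk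
  have hkk := hk₁ k (le_trans (le_max_left _ _) hk)
  have f0 := few (J := J) (fun p => lab p ≠ 0) hδ hδ1 h0 hk1 hs hkJ
  have f1 := few (J := J) (fun p => lab p ≠ 1) hδ hδ1 h1 hk1 hs hkJ
  have hpt : ∀ U : Finset ℕ, |chU U - cc| ≤ ε / 2 +
      ((if (U.filter fun p => lab p ≠ 0).card < J then (1 : ℝ) else 0) +
        (if (U.filter fun p => lab p ≠ 1).card < J then (1 : ℝ) else 0)) := by
    intro U
    have hb := chance_bd (cl 0 U) (cl 1 U) (cl 2 U)
    have h2 : |chU U - cc| ≤ 1 := dif_one hb.1 hb.2 cc_nonneg cc_le_one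
    have hε2 : 0 ≤ ε / 2 := (half_pos hε).le
    by_cases g0 : (U.filter fun p => lab p ≠ 0).card < J
    · rw [if_pos g0]
      have : (0 : ℝ) ≤ if (U.filter fun p => lab p ≠ 1).card < J then (1 : ℝ) else 0 := by
        split_ifs <;> norm_num
      linarith
    · by_cases g1 : (U.filter fun p => lab p ≠ 1).card < J
      · rw [if_pos g1]
        have : (0 : ℝ) ≤ if (U.filter fun p => lab p ≠ 0).card < J then (1 : ℝ) else 0 := by
          split_ifs <;> norm_num
        linarith
      · rw [if_neg g0, if_neg g1, add_zero, add_zero]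
        rw [ne_zero_card] at g0
        rw [ne_one_card] at g1
        have h3 := chance_close (a := cl 0 U) (b := cl 1 U) (c := cl 2 U) (J := J) (by omega)
          (by omega) (by omega)
        have h4 : (J - 1) / 2 = m := by omega
        rw [h4] at h3
        exact h3.trans hm.le
  refine (Finset.abs_sum_le_sum_abs _ _).trans ((Finset.sum_le_sum fun U _ => hpt U).trans ?_)
  rw [Finset.sum_add_distrib, Finset.sum_add_distrib, Finset.sum_boole, Finset.sum_boole,
    Finset.sum_const, Finset.card_powersetCard, nsmul_eq_mul]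
  have h5 : (2 * J * (2 * k) ^ J * (1 - δ) ^ k : ℝ) * 2 =
      (4 * J * 2 ^ J : ℝ) * ((k : ℝ) ^ J * (1 - δ) ^ k) := by
    rw [mul_pow]
    ring
  have hc0 : (0 : ℝ) ≤ (S.card.choose k : ℝ) := Nat.cast_nonneg _
  have h6 : (2 * J * (2 * k) ^ J * (1 - δ) ^ k : ℝ) * 2 * (S.card.choose k : ℝ) ≤
      ε / 2 * (S.card.choose k : ℝ) := by
    rw [h5]
    exact mul_le_mul_of_nonneg_right hkk.le hc0
  linarith

/-- the mean chance if `-7` is not a fourth power modulo the elements -/
lemma chU_ge {U : Finset ℕ} (h : ∀ p ∈ U, lab p ≠ 1) : cc ≤ chU U := by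
  have h1 : cl 1 U = 0 := by
    unfold cl
    rw [Finset.card_eq_zero, Finset.filter_eq_empty_iff]
    exact h
  unfold chU
  rw [h1]
  exact chance_ge

lemma cl_two {U : Finset ℕ} (h : ∀ p ∈ U, lab p = 2) : cl 0 U = 0 ∧ cl 1 U = 0 ∧ cl 2 U = U.card := by
  refine ⟨?_, ?_, ?_⟩
  · unfold cl
    rw [Finset.card_eq_zero, Finset.filter_eq_empty_iff]
    intro p hp
    rw [h p hp]
    decide
  · unfold cl
    rw [Finset.card_eq_zero, Finset.filter_eq_empty_iff]
    intro p hp
    rw [h p hp]
    decide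
  · unfold cl
    rw [Finset.filter_true_of_mem h]

/-- the chance if all the elements are split and `-7` is not a fourth power modulo them -/
lemma chU_two {U : Finset ℕ} (h : ∀ p ∈ U, lab p = 2) (hU : 1 ≤ U.card) :
    chU U = ∏ i ∈ Finset.range ((U.card - 1) / 2), (1 - (1 / 2 : ℝ) ^ (2 * i + 1)) := by
  obtain ⟨h0, h1, h2⟩ := cl_two h
  unfold chU chance Pool.Agent.Y219.CQ.sp
  rw [h0, h1, h2, if_neg (by omega), if_neg (by simp), if_neg (by omega)]
  by_cases hc : Odd U.card
  · rw [if_pos hc]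
    congr 2
    obtain ⟨r, hr⟩ := hc
    omega
  · rw [if_neg hc]
    rw [Nat.not_odd_iff_even] at hc
    obtain ⟨r, hr⟩ := hc
    congr 2
    omega

lemma chMU_two {U : Finset ℕ} (h : ∀ p ∈ U, lab p = 2) :
    chMU U = (mat U.card : ℝ) / 2 ^ (U.card * (U.card - 1) / 2) := by
  obtain ⟨h0, h1, h2⟩ := cl_two h
  unfold chMU chM
  rw [h0, h1, h2, if_pos rfl, mul_zero, zero_add]

end Pool.Agent.U120.DL
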